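import Pool.Agent.Helper23_Refl.StmtA

/-!
# FIN: finiteness of lattice vectors near a point and discreteness of the orthogonal group
-/

namespace Pool.Agent.Refl.H15

open Matrix

lemma br_eq (G : M4) (x y : R4) :
    br G x y = x ⬝ᵥ (G.map (Int.cast : ℤ → ℝ)).mulVec y := by
  unfold br dotProduct Matrix.mulVec dotProduct
  refine Finset.sum_congr rfl fun i _ => ?_
  rw [Finset.mul_sum]
  refine Finset.sum_congr rfl fun j _ => ?_
  simp only [Matrix.map_apply]
  ring

lemma br_cont (G : M4) (x0 : R4) : Continuous fun x : R4 => br G x x := by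
  unfold br
  fun_prop

lemma br_cont' (G : M4) (x0 : R4) : Continuous fun x : R4 => br G x0 x := by
  unfold br
  fun_prop

lemma br_smul_smul (G : M4) (t : ℝ) (x : R4) : br G (t • x) (t • x) = t ^ 2 * br G x x := by
  unfold br
  rw [Finset.mul_sum]
  refine Finset.sum_congr rfl fun i _ => ?_
  rw [Finset.mul_sum]
  refine Finset.sum_congr rfl fun j _ => ?_
  simp only [Pi.smul_apply, smul_eq_mul]
  ring

lemma br_smul_right (G : M4) (t : ℝ) (x y : R4) : br G x (t • y) = t * br G x y := by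
  unfold br
  rw [Finset.mul_sum]
  refine Finset.sum_congr rfl fun i _ => ?_
  rw [Finset.mul_sum]
  refine Finset.sum_congr rfl fun j _ => ?_
  simp only [Pi.smul_apply, smul_eq_mul]
  ring

/-- Lorentz coordinates -/
lemma coords {G : M4} (h : Sig31 G) : ∃ T : Matrix (Fin 4) (Fin 4) ℝ,
    (∀ x : R4, T.mulVec x = 0 → x = 0) ∧ ∀ x y : R4, br G x y =
      T.mulVec x 0 * T.mulVec y 0 + T.mulVec x 1 * T.mulVec y 1 + T.mulVec x 2 * T.mulVec y 2 -
        T.mulVec x 3 * T.mulVec y 3 := by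
  obtain ⟨P, hP, hd⟩ := h
  have hPi : P * P⁻¹ = 1 := Matrix.mul_nonsing_inv P hP
  refine ⟨P⁻¹, ?_, ?_⟩
  · intro x hx
    have : P.mulVec ((P⁻¹).mulVec x) = x := by
      rw [Matrix.mulVec_mulVec, hPi, Matrix.one_mulVec]
    rw [← this, hx, Matrix.mulVec_zero]
  · intro x y
    have hx : P.mulVec ((P⁻¹).mulVec x) = x := by
      rw [Matrix.mulVec_mulVec, hPi, Matrix.one_mulVec]
    have hy : P.mulVec ((P⁻¹).mulVec y) = y := by
      rw [Matrix.mulVec_mulVec, hPi, Matrix.one_mulVec]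
    set u := (P⁻¹).mulVec x
    set v := (P⁻¹).mulVec y
    have h1 : br G x y = u ⬝ᵥ (P.transpose * G.map (Int.cast : ℤ → ℝ) * P).mulVec v := by
      rw [br_eq]
      conv_lhs => rw [← hx, ← hy]
      rw [← Matrix.mulVec_mulVec, ← Matrix.mulVec_mulVec, Matrix.dotProduct_mulVec u,
        Matrix.vecMul_transpose]
    rw [h1, hd]
    simp [Matrix.mulVec_diagonal, dotProduct, Fin.sum_univ_four]
    ring

/-- Lorentz majorant: strict positivity -/
lemma lor_pos (a b c s p q r t : ℝ) (hz : p ^ 2 + q ^ 2 + r ^ 2 < t ^ 2)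
    (h : ¬(a = 0 ∧ b = 0 ∧ c = 0 ∧ s = 0)) :
    0 < (t ^ 2 - (p ^ 2 + q ^ 2 + r ^ 2)) * (a * a + b * b + c * c - s * s) +
      2 * (a * p + b * q + c * r - s * t) ^ 2 := by
  by_contra hc
  push Not at hc
  set X := (a * q - b * p) ^ 2 + (b * r - c * q) ^ 2 + (c * p - a * r) ^ 2 with hX
  set U := (t * a - s * p) ^ 2 + (t * b - s * q) ^ 2 + (t * c - s * r) ^ 2 with hU
  have hX0 : 0 ≤ X := by positivity
  have hU0 : 0 ≤ U := by positivity
  have e1 : (t ^ 2 - (p ^ 2 + q ^ 2 + r ^ 2)) * (a * a + b * b + c * c - s * s) +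
      2 * (a * p + b * q + c * r - s * t) ^ 2 = (U - X) + (a * p + b * q + c * r - s * t) ^ 2 := by
    rw [hX, hU]; ring
  have e2 : U * (p ^ 2 + q ^ 2 + r ^ 2) =
      ((t * a - s * p) * p + (t * b - s * q) * q + (t * c - s * r) * r) ^ 2 + t ^ 2 * X := by
    rw [hX, hU]; ring
  have h3 : t ^ 2 * X ≤ U * (p ^ 2 + q ^ 2 + r ^ 2) := by
    rw [e2]; nlinarith [sq_nonneg ((t * a - s * p) * p + (t * b - s * q) * q + (t * c - s * r) * r)]
  have h4 : U ≤ X := by
    nlinarith [sq_nonneg (a * p + b * q + c * r - s * t)]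
  have hXz : X = 0 := by
    by_contra hne
    have hXp : 0 < X := lt_of_le_of_ne hX0 (Ne.symm hne)
    have : U * (p ^ 2 + q ^ 2 + r ^ 2) ≤ X * (p ^ 2 + q ^ 2 + r ^ 2) :=
      mul_le_mul_of_nonneg_right h4 (by positivity)
    nlinarith
  have hUz : U = 0 := le_antisymm (hXz ▸ h4) hU0
  have hst : a * p + b * q + c * r - s * t = 0 := by
    have : (a * p + b * q + c * r - s * t) ^ 2 ≤ 0 := by nlinarith
    exact pow_eq_zero_iff (two_ne_zero) |>.1 (le_antisymm this (sq_nonneg _))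
  have u1 : t * a - s * p = 0 := by
    have : (t * a - s * p) ^ 2 ≤ 0 := by
      nlinarith [sq_nonneg (t * b - s * q), sq_nonneg (t * c - s * r)]
    exact pow_eq_zero_iff (two_ne_zero) |>.1 (le_antisymm this (sq_nonneg _))
  have u2 : t * b - s * q = 0 := by
    have : (t * b - s * q) ^ 2 ≤ 0 := by
      nlinarith [sq_nonneg (t * a - s * p), sq_nonneg (t * c - s * r)]
    exact pow_eq_zero_iff (two_ne_zero) |>.1 (le_antisymm this (sq_nonneg _))
  have u3 : t * c - s * r = 0 := by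
    have : (t * c - s * r) ^ 2 ≤ 0 := by
      nlinarith [sq_nonneg (t * a - s * p), sq_nonneg (t * b - s * q)]
    exact pow_eq_zero_iff (two_ne_zero) |>.1 (le_antisymm this (sq_nonneg _))
  have hs : s * (t ^ 2 - (p ^ 2 + q ^ 2 + r ^ 2)) = 0 := by
    linear_combination (-t) * hst + p * u1 + q * u2 + r * u3
  have hD : t ^ 2 - (p ^ 2 + q ^ 2 + r ^ 2) ≠ 0 := by
    have : 0 < t ^ 2 - (p ^ 2 + q ^ 2 + r ^ 2) := by linarith
    exact this.ne'
  have hs0 : s = 0 := by
    rcases mul_eq_zero.1 hs with h | h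
    · exact h
    · exact absurd h hD
  have ht : t ≠ 0 := by
    rintro rfl
    nlinarith [sq_nonneg p, sq_nonneg q, sq_nonneg r]
  subst hs0
  apply h
  refine ⟨?_, ?_, ?_, rfl⟩
  · have : t * a = 0 := by linarith
    exact (mul_eq_zero.1 this).resolve_left ht
  · have : t * b = 0 := by linarith
    exact (mul_eq_zero.1 this).resolve_left ht
  · have : t * c = 0 := by linarith
    exact (mul_eq_zero.1 this).resolve_left ht

lemma maj_pos {G : M4} (h : Sig31 G) {x0 : R4} (h0 : br G x0 x0 < 0) {x : R4} (hx : x ≠ 0) :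
    0 < -(br G x0 x0) * br G x x + 2 * br G x0 x ^ 2 := by
  obtain ⟨T, hT, hb⟩ := coords h
  have hne : ¬(T.mulVec x 0 = 0 ∧ T.mulVec x 1 = 0 ∧ T.mulVec x 2 = 0 ∧ T.mulVec x 3 = 0) := by
    rintro ⟨e0, e1, e2, e3⟩
    apply hx
    apply hT
    funext i
    fin_cases i
    · exact e0
    · exact e1
    · exact e2
    · exact e3
  rw [hb] at h0
  have := lor_pos (T.mulVec x 0) (T.mulVec x 1) (T.mulVec x 2) (T.mulVec x 3)
    (T.mulVec x0 0) (T.mulVec x0 1) (T.mulVec x0 2) (T.mulVec x0 3) (by nlinarith) hne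
  rw [hb, hb, hb]
  nlinarith

lemma maj_bound {G : M4} (h : Sig31 G) {x0 : R4} (h0 : br G x0 x0 < 0) :
    ∃ c : ℝ, 0 < c ∧ ∀ x : R4, c * ‖x‖ ^ 2 ≤
      -(br G x0 x0) * br G x x + 2 * br G x0 x ^ 2 := by
  have hcomp : IsCompact (Metric.sphere (0 : R4) 1) := isCompact_sphere _ _
  have hcont : Continuous fun x : R4 => -(br G x0 x0) * br G x x + 2 * br G x0 x ^ 2 := by
    have := br_cont G x0
    have := br_cont' G x0
    fun_prop
  have hne : (Metric.sphere (0 : R4) 1).Nonempty := by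
    refine ⟨fun _ => 1, ?_⟩
    simp only [mem_sphere_iff_norm, sub_zero]
    exact (pi_norm_const (ι := Fin 4) (1 : ℝ)).trans norm_one
  obtain ⟨m, hm, hmin⟩ := hcomp.exists_isMinOn hne hcont.continuousOn
  refine ⟨_, maj_pos h h0 (x := m) ?_, ?_⟩
  · rintro rfl
    simp at hm
  · intro x
    by_cases hx : x = 0
    · subst hx
      have e1 : br G 0 0 = 0 := by simp [br]
      have e2 : br G x0 0 = 0 := by simp [br]
      simp [e1, e2]
    · have hn : 0 < ‖x‖ := norm_pos_iff.2 hx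
      have hu : (‖x‖⁻¹ • x) ∈ Metric.sphere (0 : R4) 1 := by
        simp only [mem_sphere_iff_norm, sub_zero, norm_smul, norm_inv, norm_norm]
        exact inv_mul_cancel₀ hn.ne'
      have h1 := hmin hu
      simp only [Set.mem_setOf_eq] at h1
      have e : x = ‖x‖ • (‖x‖⁻¹ • x) := by
        rw [smul_smul, mul_inv_cancel₀ hn.ne', one_smul]
      have e1 : br G x x = ‖x‖ ^ 2 * br G (‖x‖⁻¹ • x) (‖x‖⁻¹ • x) := by
        conv_lhs => rw [e]
        rw [br_smul_smul]
      have e2 : br G x0 x = ‖x‖ * br G x0 (‖x‖⁻¹ • x) := by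
        conv_lhs => rw [e]
        rw [br_smul_right]
      have h2 := mul_le_mul_of_nonneg_left h1 (sq_nonneg ‖x‖)
      calc _ = ‖x‖ ^ 2 * (-br G x0 x0 * br G m m + 2 * br G x0 m ^ 2) := by ring
        _ ≤ _ := h2
        _ = _ := by rw [e1, e2]; ring

lemma bz_up (G : M4) (v w : Z4) : (bz G v w : ℝ) = br G (up v) (up w) := by
  unfold bz br up
  push_cast
  rfl

theorem finVec : FinVecStmt := by
  intro G hG x0 h0 C
  obtain ⟨c, hc, hb⟩ := maj_bound hG.sig h0
  obtain ⟨N, hN⟩ := exists_nat_gt ((-(br G x0 x0) * C + 2 * C ^ 2) / c + 1)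
  refine Set.Finite.subset (Set.finite_Icc (fun _ : Fin 4 => -(N : ℤ)) (fun _ => (N : ℤ))) ?_
  rintro v ⟨h1, h2⟩
  have h3 := hb (up v)
  rw [← bz_up] at h3
  have h4 : br G x0 (up v) ^ 2 ≤ C ^ 2 := by
    have := abs_nonneg (br G x0 (up v))
    rw [← sq_abs (br G x0 (up v))]
    exact pow_le_pow_left₀ this h2 2
  have h5 : -(br G x0 x0) * (bz G v v : ℝ) ≤ -(br G x0 x0) * C :=
    mul_le_mul_of_nonneg_left h1 (by linarith)
  have h6 : ‖up v‖ ^ 2 ≤ (-(br G x0 x0) * C + 2 * C ^ 2) / c := by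
    rw [le_div_iff₀ hc]
    linarith
  have h7 : ‖up v‖ ≤ N := by
    have h8 : ‖up v‖ ≤ ‖up v‖ ^ 2 + 1 := by nlinarith [sq_nonneg (‖up v‖ - 1), norm_nonneg (up v)]
    linarith
  have h9 : ∀ i, |v i| ≤ (N : ℤ) := by
    intro i
    have : |((v i : ℤ) : ℝ)| ≤ N := le_trans (by simpa [up] using norm_le_pi_norm (up v) i) h7
    exact_mod_cast this
  rw [Set.mem_Icc]
  constructor
  · intro i; exact (abs_le.1 (h9 i)).1
  · intro i; exact (abs_le.1 (h9 i)).2

lemma map_mul_cast (A B : M4) : (A * B).map (Int.cast : ℤ → ℝ) =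
    A.map (Int.cast : ℤ → ℝ) * B.map (Int.cast : ℤ → ℝ) := by
  have := Matrix.map_mul (L := A) (M := B) (f := Int.castRingHom ℝ)
  exact this

lemma up_mulVec (g : M4) (v : Z4) : up (g.mulVec v) = act g (up v) := by
  funext i
  simp [up, act, Matrix.mulVec, dotProduct]

lemma act_mul (g h : M4) (x : R4) : act (g * h) x = act g (act h x) := by
  unfold act
  rw [map_mul_cast, Matrix.mulVec_mulVec]

lemma act_one (x : R4) : act 1 x = x := by
  unfold act
  rw [Matrix.map_one (Int.cast : ℤ → ℝ) Int.cast_zero Int.cast_one, Matrix.one_mulVec]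

lemma br_act {G : M4} {g : M4ˣ} (hg : g ∈ OG G) (x y : R4) :
    br G (act (g : M4) x) (act (g : M4) y) = br G x y := by
  have h : (g : M4).transpose * G * (g : M4) = G := hg
  have h2 : ((g : M4).map (Int.cast : ℤ → ℝ)).transpose * G.map (Int.cast : ℤ → ℝ) *
      (g : M4).map (Int.cast : ℤ → ℝ) = G.map (Int.cast : ℤ → ℝ) := by
    rw [← Matrix.transpose_map, ← map_mul_cast, ← map_mul_cast, h]
  rw [br_eq, br_eq]
  conv_rhs => rw [← h2]
  unfold act
  rw [← Matrix.mulVec_mulVec, ← Matrix.mulVec_mulVec, Matrix.dotProduct_mulVec x,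
        Matrix.vecMul_transpose]

lemma bz_act {G : M4} {g : M4ˣ} (hg : g ∈ OG G) (x y : Z4) :
    bz G ((g : M4).mulVec x) ((g : M4).mulVec y) = bz G x y := by
  have : ((bz G ((g : M4).mulVec x) ((g : M4).mulVec y) : ℤ) : ℝ) = (bz G x y : ℝ) := by
    rw [bz_up, bz_up, up_mulVec, up_mulVec, br_act hg]
  exact_mod_cast this

theorem finGrp : FinGrpStmt := by
  intro G hG x0 h0 C
  -- bound for the values
  set K : ℝ := |C| * ∑ i, ∑ j, |(G i j : ℝ)| + ∑ i, |(G i i : ℝ)| with hK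
  have hF := finVec G hG x0 h0 K
  have hpi : (Set.pi (Set.univ : Set (Fin 4)) fun _ =>
      {v : Z4 | (bz G v v : ℝ) ≤ K ∧ |br G x0 (up v)| ≤ K}).Finite :=
    Set.Finite.pi' (fun _ => hF) |>.subset (by
      intro f hf i
      exact hf i (Set.mem_univ i))
  refine Set.Finite.of_finite_image (f := fun g : M4ˣ => fun k : Fin 4 =>
    ((g⁻¹ : M4ˣ) : M4).mulVec (Pi.single k 1)) (hpi.subset ?_) ?_
  · rintro _ ⟨g, ⟨hg, hgx⟩, rfl⟩ k -
    have hgi : g⁻¹ ∈ OG G := inv_mem hg
    have hsum0 : 0 ≤ |C| * ∑ i, ∑ j, |(G i j : ℝ)| := by positivity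
    have hsumd : ∀ k : Fin 4, |(G k k : ℝ)| ≤ ∑ i, |(G i i : ℝ)| := fun k =>
      Finset.single_le_sum (f := fun i => |(G i i : ℝ)|) (fun i _ => abs_nonneg _)
        (Finset.mem_univ k)
    have hsumd0 : 0 ≤ ∑ i, |(G i i : ℝ)| := by positivity
    constructor
    · dsimp only
      rw [bz_act hgi]
      have : bz G (Pi.single k 1) (Pi.single k 1) = G k k := by
        unfold bz
        simp [Pi.single_apply]
      rw [this]
      have := le_abs_self ((G k k : ℤ) : ℝ)
      have := hsumd k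
      linarith
    · dsimp only
      rw [up_mulVec]
      have e : br G x0 (act ((g⁻¹ : M4ˣ) : M4) (up (Pi.single k 1))) =
          br G (act (g : M4) x0) (up (Pi.single k 1)) := by
        rw [← br_act hg, ← act_mul]
        rw [← Units.val_mul, mul_inv_cancel, Units.val_one, act_one]
      rw [e]
      have e2 : br G (act (g : M4) x0) (up (Pi.single k 1)) =
          ∑ i, act (g : M4) x0 i * (G i k : ℝ) := by
        unfold br up
        refine Finset.sum_congr rfl fun i _ => ?_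
        rw [Finset.sum_eq_single k]
        · simp
        · intro j _ hj
          simp [Pi.single_apply, hj]
        · simp
      rw [e2]
      have : |∑ i, act (g : M4) x0 i * (G i k : ℝ)| ≤ |C| * ∑ i, ∑ j, |(G i j : ℝ)| := by
        refine (Finset.abs_sum_le_sum_abs _ _).trans ?_
        rw [Finset.mul_sum]
        refine Finset.sum_le_sum fun i _ => ?_
        rw [abs_mul]
        refine mul_le_mul ((hgx i).trans (le_abs_self C)) ?_ (abs_nonneg _) (abs_nonneg _)
        exact Finset.single_le_sum (f := fun j => |(G i j : ℝ)|) (fun i _ => abs_nonneg _)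
          (Finset.mem_univ k)
      linarith
  · intro g _ h _ hgh
    have : (g⁻¹ : M4ˣ) = h⁻¹ := by
      apply Units.ext
      ext i k
      have := congrFun (congrFun hgh k) i
      simpa [Matrix.mulVec_single_one] using this
    exact inv_injective this

end Pool.Agent.Refl.H15
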