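import Pool.Agent.Helper23_Refl.StmtC5
import Pool.Agent.Helper15_Refl.Fin

/-!
# ANI: a compact cone bounded by roots, no isotropic vector
-/

namespace Pool.Agent.Refl.H15

open Matrix

lemma bz_comm' {G : M4} (hG : G.transpose = G) (x y : Z4) : bz G x y = bz G y x := by
  have hs : ∀ i j, G i j = G j i := fun i j => by
    have := congrFun (congrFun hG j) i
    simpa [Matrix.transpose_apply] using this
  unfold bz
  rw [Finset.sum_comm]
  refine Finset.sum_congr rfl fun i _ => Finset.sum_congr rfl fun j _ => ?_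
  rw [hs j i]; ring

lemma bz_lin (G : M4) (a b : ℤ) (x y z : Z4) :
    bz G z (a • x + b • y) = a * bz G z x + b * bz G z y := by
  unfold bz
  simp only [Finset.mul_sum, ← Finset.sum_add_distrib]
  refine Finset.sum_congr rfl fun i _ => Finset.sum_congr rfl fun j _ => ?_
  simp only [Pi.add_apply, Pi.smul_apply, smul_eq_mul]
  ring

lemma bz_sq {G : M4} (hG : G.transpose = G) (a b : ℤ) (x y : Z4) :
    bz G (a • x + b • y) (a • x + b • y) =
      a ^ 2 * bz G x x + 2 * (a * b) * bz G x y + b ^ 2 * bz G y y := by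
  rw [bz_lin, bz_comm' hG (a • x + b • y) x, bz_comm' hG (a • x + b • y) y, bz_lin, bz_lin,
    bz_comm' hG y x]
  ring

lemma up_ne {x : Z4} (hx : x ≠ 0) : up x ≠ 0 := by
  intro h
  apply hx
  funext i
  have := congrFun h i
  simpa [up] using this

/-- integral form of the majorant -/
lemma maj_int {G : M4} (h : Sig31 G) {x0 : Z4} (h0 : bz G x0 x0 < 0) {x : Z4} (hx : x ≠ 0) :
    0 < -(bz G x0 x0) * bz G x x + 2 * bz G x0 x ^ 2 := by
  have h1 : br G (up x0) (up x0) < 0 := by
    rw [← bz_up]; exact_mod_cast h0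
  have h2 := maj_pos h h1 (up_ne hx)
  rw [← bz_up, ← bz_up, ← bz_up] at h2
  exact_mod_cast h2

/-- nappes -/
lemma nappe {G : M4} (hG : G.transpose = G) (h : Sig31 G) {x0 y z : Z4} (h0 : bz G x0 x0 < 0)
    (hy : bz G y y ≤ 0) (hz : bz G z z < 0) (h1 : bz G x0 y < 0) (h2 : bz G x0 z < 0) :
    bz G y z < 0 := by
  set w : Z4 := (bz G x0 z) • y + (-bz G x0 y) • z with hw
  have e1 : bz G x0 w = 0 := by rw [hw, bz_lin]; ring
  have e2 : bz G w w = bz G x0 z ^ 2 * bz G y y - 2 * (bz G x0 z) * (bz G x0 y) * bz G y z +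
      bz G x0 y ^ 2 * bz G z z := by
    rw [hw, bz_sq hG]; ring
  have h3 : 0 ≤ bz G w w := by
    by_cases h4 : w = 0
    · rw [h4]; simp [bz]
    · have := maj_int h h0 h4
      rw [e1] at this
      by_contra hc
      push Not at hc
      nlinarith
  rw [e2] at h3
  by_contra hc
  push Not at hc
  have h5 : 0 < bz G x0 z * bz G x0 y := mul_pos_of_neg_of_neg h2 h1
  have h6 : 0 ≤ bz G x0 z * bz G x0 y * bz G y z := mul_nonneg h5.le hc
  have h7 : bz G x0 z ^ 2 * bz G y y ≤ 0 := mul_nonpos_of_nonneg_of_nonpos (sq_nonneg _) hy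
  have h8 : bz G x0 y ^ 2 * bz G z z < 0 :=
    mul_neg_of_pos_of_neg (by nlinarith) hz
  nlinarith

theorem ani : AniStmt := by
  intro G hG hS n e O hr hO hOe hc
  obtain ⟨c, hc0, hc⟩ := hc
  -- no isotropic vector in the nappe of `O`
  have key : ∀ N : ℕ, ∀ v : Z4, v ≠ 0 → bz G v v = 0 → bz G O v < 0 → (bz G O v).natAbs = N →
      False := by
    intro N
    induction N using Nat.strong_induction_on with
    | _ N ih =>
      intro v hv hvv hOv hN
      by_cases hall : ∀ i, bz G v (e i) ≤ 0
      · have h1 := hc (up v) (fun i => by rw [← bz_up]; exact_mod_cast hall i)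
        rw [← bz_up, ← bz_up, hvv, bz_comm' hG v O] at h1
        have h2 : (0 : ℝ) < ((bz G O v : ℤ) : ℝ) ^ 2 := by
          have : ((bz G O v : ℤ) : ℝ) < 0 := by exact_mod_cast hOv
          nlinarith
        simp only [Int.cast_zero] at h1
        nlinarith
      · push Not at hall
        obtain ⟨i, hi⟩ := hall
        have hk := (hr i).pos
        obtain ⟨m, hm⟩ := (hr i).dvd v
        have hm0 : 0 < m := by
          by_contra hc'
          push Not at hc'
          nlinarith
        set v' : Z4 := (1 : ℤ) • v + (-m) • e i with hv'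
        have e1 : bz G O v' = bz G O v - m * bz G O (e i) := by
          rw [hv', bz_lin]; ring
        have e2 : bz G v' v' = 0 := by
          rw [hv', bz_sq hG, hvv]
          linear_combination (-m) * hm
        have hv'0 : v' ≠ 0 := by
          intro h0
          have h1 : bz G (e i) v' = 0 := by rw [h0]; simp [bz]
          rw [hv', bz_lin, bz_comm' hG (e i) v] at h1
          nlinarith
        set O' : Z4 := (bz G (e i) (e i)) • O + (-(2 * bz G O (e i))) • e i with hO'
        have f1 : bz G O O' = bz G (e i) (e i) * bz G O O - 2 * bz G O (e i) ^ 2 := by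
          rw [hO', bz_lin]; ring
        have f2 : bz G O' O' = bz G (e i) (e i) ^ 2 * bz G O O := by
          rw [hO', bz_sq hG]; ring
        have f3 : bz G v O' = bz G (e i) (e i) * bz G O v' := by
          rw [hO', bz_lin, e1, bz_comm' hG v O]
          linear_combination (-bz G O (e i)) * hm
        have f4 : bz G v O' < 0 := by
          refine nappe hG hS hO hvv.le ?_ hOv ?_
          · rw [f2]
            exact mul_neg_of_pos_of_neg (by positivity) hO
          · rw [f1]
            nlinarith [sq_nonneg (bz G O (e i)), mul_neg_of_pos_of_neg hk hO]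
        have h4 : bz G O v' < 0 := by
          rw [f3] at f4
          by_contra hc'
          push Not at hc'
          nlinarith
        have h5 : bz G O v < bz G O v' := by
          rw [e1]
          have := mul_neg_of_pos_of_neg hm0 (hOe i)
          linarith
        exact ih (bz G O v').natAbs (by omega) v' hv'0 e2 h4 rfl
  intro x hx
  by_contra hx0
  have h1 := maj_int hS hO hx0
  rw [hx] at h1
  have h2 : bz G O x ≠ 0 := by
    intro h0
    rw [h0] at h1
    simp at h1
  rcases lt_or_gt_of_ne h2 with h3 | h3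
  · exact key _ x hx0 hx h3 rfl
  · refine key _ ((-1 : ℤ) • x + (0 : ℤ) • x) ?_ ?_ ?_ rfl
    · simpa using hx0
    · rw [bz_sq hG, hx]; ring
    · rw [bz_lin]; linarith

end Pool.Agent.Refl.H15
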