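import Pool.Agent.Helper23_Refl.StmtC5
import Pool.Agent.Helper92_Refl.SqK

/-!
# NRM: normalization of vectors modulo a prime
-/

namespace Pool.Agent.Refl.H15N

open Matrix

lemma p4_eq (a b c d : ℕ) :
    K.p4 a b c d = a + 65536 * b + (4294967296 * c + 281474976710656 * d) := rfl

lemma dig0_p4 {a b c d : ℕ} (ha : a < 65536) : K.dig0 (K.p4 a b c d) = a := by
  rw [p4_eq]
  show (a + 65536 * b + (4294967296 * c + 281474976710656 * d)) % 65536 = a
  omega

lemma dig1_p4 {a b c d : ℕ} (ha : a < 65536) (hb : b < 65536) :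
    K.dig1 (K.p4 a b c d) = b := by
  rw [p4_eq]
  show (a + 65536 * b + (4294967296 * c + 281474976710656 * d)) / 65536 % 65536 = b
  omega

lemma dig2_p4 {a b c d : ℕ} (ha : a < 65536) (hb : b < 65536) (hc : c < 65536) :
    K.dig2 (K.p4 a b c d) = c := by
  rw [p4_eq]
  show (a + 65536 * b + (4294967296 * c + 281474976710656 * d)) / 4294967296 % 65536 = c
  omega

lemma dig3_p4 {a b c d : ℕ} (ha : a < 65536) (hb : b < 65536) (hc : c < 65536) :
    K.dig3 (K.p4 a b c d) = d := by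
  rw [p4_eq]
  show (a + 65536 * b + (4294967296 * c + 281474976710656 * d)) / 281474976710656 = d
  omega

lemma redm_p4 {m a b c d : ℕ} (ha : a < 65536) (hb : b < 65536) (hc : c < 65536) :
    K.redm m (K.p4 a b c d) = K.p4 (a % m) (b % m) (c % m) (d % m) := by
  unfold K.redm
  rw [dig0_p4 ha, dig1_p4 ha hb, dig2_p4 ha hb hc, dig3_p4 ha hb hc]
  rfl

lemma mul_p4 (i a b c d : ℕ) :
    Nat.mul i (K.p4 a b c d) = K.p4 (i * a) (i * b) (i * c) (i * d) := by
  rw [p4_eq, p4_eq]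
  show i * _ = _
  ring

lemma redm_mul {p i a b c d : ℕ} (hp : p ≤ 127) (hi : i < p) (ha : a < p) (hb : b < p)
    (hc : c < p) : K.redm p (Nat.mul i (K.p4 a b c d)) =
      K.p4 (i * a % p) (i * b % p) (i * c % p) (i * d % p) := by
  have h : ∀ t, t < p → i * t < 65536 := fun t ht => by nlinarith
  rw [mul_p4, redm_p4 (h a ha) (h b hb) (h c hc)]

lemma nrmP_eq {p a b c d : ℕ} (ha : a < 65536) (hb : b < 65536) (hc : c < 65536) :
    K.nrmP p (K.p4 a b c d) =
      if a = 0 then (if b = 0 then (if c = 0 then K.p4 0 0 0 (if d = 0 then 0 else 1)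
        else K.redm p (Nat.mul (K.invp p c) (K.p4 a b c d)))
        else K.redm p (Nat.mul (K.invp p b) (K.p4 a b c d)))
        else K.redm p (Nat.mul (K.invp p a) (K.p4 a b c d)) := by
  unfold K.nrmP
  rw [dig0_p4 ha, dig1_p4 ha hb, dig2_p4 ha hb hc, dig3_p4 ha hb hc]
  simp only [H92.fc_eq]
  cases a with
  | zero =>
    cases b with
    | zero =>
      cases c with
      | zero =>
        simp only [if_true]
        congr 1
        cases d with
        | zero => rfl
        | succ d => rfl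
      | succ c => simp
    | succ b => simp
  | succ a => simp

lemma invp_spec {p a : ℕ} (hp : p.Prime) (ha : a < p) (ha0 : a ≠ 0) :
    K.invp p a < p ∧ K.invp p a * a % p = 1 := by
  have e : K.invp p a = a ^ (p - 2) % p := rfl
  have h2 := hp.two_le
  refine ⟨e ▸ Nat.mod_lt _ hp.pos, ?_⟩
  haveI := Fact.mk hp
  have h1 : (a : ZMod p) ≠ 0 := by
    intro h
    rw [ZMod.natCast_eq_zero_iff] at h
    exact ha0 (Nat.eq_zero_of_dvd_of_lt h ha)
  have h3 := ZMod.pow_card_sub_one_eq_one h1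
  have h4 : ((K.invp p a * a : ℕ) : ZMod p) = ((1 : ℕ) : ZMod p) := by
    rw [e]
    push_cast
    rw [ZMod.natCast_mod]
    push_cast
    rw [← pow_succ]
    rw [← h3]
    congr 1
    omega
  rw [ZMod.natCast_eq_natCast_iff'] at h4
  rw [h4]
  exact Nat.mod_eq_of_lt (by omega)

lemma pkZ_p4 (p : ℕ) (x : Z4) : pkZ p x =
    K.p4 (x 0 % p).toNat (x 1 % p).toNat (x 2 % p).toNat (x 3 % p).toNat := by
  rw [p4_eq]; unfold pkZ; ring

lemma res_lt {p : ℕ} (hp : 0 < p) (t : ℤ) : (t % p).toNat < p := by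
  have h1 := Int.emod_lt_of_pos t (by exact_mod_cast hp : (0 : ℤ) < p)
  have h2 := Int.emod_nonneg t (by exact_mod_cast hp.ne' : (p : ℤ) ≠ 0)
  omega

lemma res_cast {p : ℕ} (hp : 0 < p) (t : ℤ) : (((t % p).toNat : ℕ) : ℤ) = t % p := by
  have h2 := Int.emod_nonneg t (by exact_mod_cast hp.ne' : (p : ℤ) ≠ 0)
  omega

lemma nat_res {p a : ℕ} (ha : a < p) : (((a : ℤ)) % p).toNat = a := by
  rw [Int.emod_eq_of_lt (by positivity) (by exact_mod_cast ha)]
  exact Int.toNat_natCast a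

lemma pkZ_nz {p a b c d : ℕ} (ha : a < p) (hb : b < p) (hc : c < p) (hd : d < p) :
    pkZ p (nz a b c d) = K.p4 a b c d := by
  rw [pkZ_p4]
  unfold nz
  simp only [Matrix.cons_val_zero, Matrix.cons_val_one, Matrix.cons_val]
  rw [nat_res ha, nat_res hb, nat_res hc, nat_res hd]

lemma cg_coord {p i : ℕ} (hp : 0 < p) (t : ℤ) :
    (p : ℤ) ∣ ((i * (t % p).toNat % p : ℕ) : ℤ) - i * t := by
  push_cast
  rw [res_cast hp, Int.emod_def, Int.emod_def]
  exact ⟨-(i * (t / p)) - (i * (t - p * (t / p)) / p), by ring⟩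

/-- existence -/
lemma ex {p : ℕ} {x : Z4} (hp : p.Prime) (hp7 : p ≤ 127) (hx : ¬ Cg p x 0) :
    ∃ (z : Z4) (c : ℤ), LnForm p z ∧ ¬ (p : ℤ) ∣ c ∧ Cg p z (c • x) ∧
      K.nrmP p (pkZ p x) = pkZ p z := by
  have hp0 := hp.pos
  have hp1 := hp.one_lt
  -- the residues
  have l0 := res_lt hp0 (x 0)
  have l1 := res_lt hp0 (x 1)
  have l2 := res_lt hp0 (x 2)
  have l3 := res_lt hp0 (x 3)
  have hcg : ∀ i : ℕ, Cg p (nz (i * (x 0 % p).toNat % p) (i * (x 1 % p).toNat % p)
      (i * (x 2 % p).toNat % p) (i * (x 3 % p).toNat % p)) ((i : ℤ) • x) := by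
    intro i j
    fin_cases j
    · exact cg_coord hp0 (x 0)
    · exact cg_coord hp0 (x 1)
    · exact cg_coord hp0 (x 2)
    · exact cg_coord hp0 (x 3)
  have hz : ∀ t : ℤ, (t % p).toNat = 0 → (p : ℤ) ∣ t := by
    intro t ht
    have := res_cast hp0 t
    rw [ht] at this
    exact Int.dvd_of_emod_eq_zero this.symm
  have hnd : ∀ i t : ℕ, i < p → i * t % p = 1 → ¬ (p : ℤ) ∣ (i : ℤ) := by
    intro i t hi h hd
    have : p ∣ i := by exact_mod_cast hd
    have h0 := Nat.eq_zero_of_dvd_of_lt this hi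
    rw [h0] at h
    simp at h
  set r0 := (x 0 % p).toNat with hr0
  set r1 := (x 1 % p).toNat with hr1
  set r2 := (x 2 % p).toNat with hr2
  set r3 := (x 3 % p).toNat with hr3
  have hm : ∀ t : ℕ, t % p < p := fun t => Nat.mod_lt _ hp0
  have hpk : ∀ i : ℕ, pkZ p (nz (i * r0 % p) (i * r1 % p) (i * r2 % p) (i * r3 % p)) =
      K.p4 (i * r0 % p) (i * r1 % p) (i * r2 % p) (i * r3 % p) :=
    fun i => pkZ_nz (hm _) (hm _) (hm _) (hm _)
  rw [pkZ_p4, ← hr0, ← hr1, ← hr2, ← hr3,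
    nrmP_eq (by omega) (by omega) (by omega)]
  by_cases h0 : r0 = 0
  · by_cases h1 : r1 = 0
    · by_cases h2 : r2 = 0
      · have h3 : r3 ≠ 0 := by
          intro h3
          apply hx
          intro j
          simp only [Pi.zero_apply, sub_zero]
          fin_cases j
          · exact hz _ h0
          · exact hz _ h1
          · exact hz _ h2
          · exact hz _ h3
        obtain ⟨i1, i2⟩ := invp_spec hp l3 h3
        refine ⟨_, _, ?_, hnd _ _ i1 i2, hcg (K.invp p r3), ?_⟩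
        · refine ⟨0, 0, 0, hp0, hp0, hp0, Or.inr (Or.inr (Or.inr ?_))⟩
          rw [h0, h1, h2, i2]
          simp
        · rw [hpk, i2, if_pos h0, if_pos h1, if_pos h2, if_neg h3, h0, h1, h2]
          simp
      · obtain ⟨i1, i2⟩ := invp_spec hp l2 h2
        refine ⟨_, _, ?_, hnd _ _ i1 i2, hcg (K.invp p r2), ?_⟩
        · refine ⟨K.invp p r2 * r3 % p, 0, 0, hm _, hp0, hp0, Or.inr (Or.inr (Or.inl ?_))⟩
          rw [h0, h1, i2]
          simp
        · rw [hpk, if_pos h0, if_pos h1, if_neg h2, redm_mul hp7 i1 l0 l1 l2]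
    · obtain ⟨i1, i2⟩ := invp_spec hp l1 h1
      refine ⟨_, _, ?_, hnd _ _ i1 i2, hcg (K.invp p r1), ?_⟩
      · refine ⟨K.invp p r1 * r2 % p, K.invp p r1 * r3 % p, 0, hm _, hm _, hp0,
          Or.inr (Or.inl ?_)⟩
        rw [h0, i2]
        simp
      · rw [hpk, if_pos h0, if_neg h1, redm_mul hp7 i1 l0 l1 l2]
  · obtain ⟨i1, i2⟩ := invp_spec hp l0 h0
    refine ⟨_, _, ?_, hnd _ _ i1 i2, hcg (K.invp p r0), ?_⟩
    · refine ⟨K.invp p r0 * r1 % p, K.invp p r0 * r2 % p, K.invp p r0 * r3 % p,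
        hm _, hm _, hm _, Or.inl ?_⟩
      rw [i2]
    · rw [hpk, if_neg h0, redm_mul hp7 i1 l0 l1 l2]

/-- coordinates of normalized vectors -/
lemma lnF {p : ℕ} {z : Z4} (h : LnForm p z) (hp : 0 < p) : (∀ i, 0 ≤ z i ∧ z i < p ∨ p = 1) ∧
    (z 0 = 1 ∨ (z 0 = 0 ∧ z 1 = 1) ∨ (z 0 = 0 ∧ z 1 = 0 ∧ z 2 = 1) ∨
      (z 0 = 0 ∧ z 1 = 0 ∧ z 2 = 0 ∧ z 3 = 1)) := by
  obtain ⟨a, b, c, ha, hb, hc, rfl | rfl | rfl | rfl⟩ := h
  all_goals
    refine ⟨?_, ?_⟩
    · intro i
      fin_cases i <;> simp [nz] <;> omega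
    · simp [nz]

/-- uniqueness -/
lemma uniq {p : ℕ} (hp : p.Prime) {z z' : Z4} (h : LnForm p z) (h' : LnForm p z') {a b : ℤ}
    (ha : ¬ (p : ℤ) ∣ a) (hb : ¬ (p : ℤ) ∣ b) (hc : Cg p (a • z) (b • z')) : z = z' := by
  have hpz : Prime (p : ℤ) := Nat.prime_iff_prime_int.1 hp
  obtain ⟨h1, h2⟩ := lnF h hp.pos
  obtain ⟨h1', h2'⟩ := lnF h' hp.pos
  have hp1 := hp.one_lt
  have hc' : ∀ i, (p : ℤ) ∣ a * z i - b * z' i := hc
  -- first coordinates agree up to the leading one
  have hz : ∀ i, z i = 0 → z' i = 1 → False := by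
    intro i e1 e2
    have := hc' i
    rw [e1, e2] at this
    apply hb
    simpa using this
  have hz' : ∀ i, z i = 1 → z' i = 0 → False := by
    intro i e1 e2
    have := hc' i
    rw [e1, e2] at this
    apply ha
    simpa using this
  have hab : (p : ℤ) ∣ a - b := by
    rcases h2 with e | ⟨e0, e⟩ | ⟨e0, e1, e⟩ | ⟨e0, e1, e2, e⟩ <;>
      rcases h2' with f | ⟨f0, f⟩ | ⟨f0, f1, f⟩ | ⟨f0, f1, f2, f⟩
    all_goals first
      | exact (hz _ ‹_› ‹_›).elim
      | exact (hz' _ ‹_› ‹_›).elim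
      | skip
    · have := hc' 0
      rw [e, f] at this
      simpa using this
    all_goals skip
    all_goals first
      | exact absurd ‹z 0 = 0› (fun t => hz 0 t ‹_›)
      | exact absurd ‹z 1 = 0› (fun t => hz 1 t ‹_›)
      | exact absurd ‹z 2 = 0› (fun t => hz 2 t ‹_›)
      | exact absurd ‹z' 0 = 0› (fun t => hz' 0 ‹_› t)
      | exact absurd ‹z' 1 = 0› (fun t => hz' 1 ‹_› t)
      | exact absurd ‹z' 2 = 0› (fun t => hz' 2 ‹_› t)
      | (have := hc' 1; rw [‹z 1 = 1›, ‹z' 1 = 1›] at this; simpa using this)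
      | (have := hc' 2; rw [‹z 2 = 1›, ‹z' 2 = 1›] at this; simpa using this)
      | (have := hc' 3; rw [‹z 3 = 1›, ‹z' 3 = 1›] at this; simpa using this)
  funext i
  have h3 : (p : ℤ) ∣ a * (z i - z' i) := by
    have := dvd_sub (hc' i) (Dvd.dvd.mul_right hab (z' i))
    have e : a * z i - b * z' i - (a - b) * z' i = a * (z i - z' i) := by ring
    rwa [e] at this
  have h4 := (hpz.dvd_or_dvd h3).resolve_left ha
  have h5 := h1 i
  have h6 := h1' i
  obtain ⟨k, hk⟩ := h4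
  have h7 : -(p : ℤ) < p * k ∧ (p : ℤ) * k < p := by omega
  have h8 : k = 0 := by
    have hp' : (0 : ℤ) < p := by exact_mod_cast hp.pos
    by_contra hne
    rcases lt_or_gt_of_ne hne with h | h <;> nlinarith
  rw [h8] at hk
  omega

theorem nrm : NrmStmt := by
  intro p x hp hp7 hx
  have hpz : Prime (p : ℤ) := Nat.prime_iff_prime_int.1 hp
  have hp1 := hp.one_lt
  obtain ⟨z, c, hz, hc, hzx, hn⟩ := ex hp hp7 hx
  constructor
  · refine ⟨z, c, hz, hc, hzx, hn, ?_⟩
    have hz0 : ¬ Cg p z 0 := by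
      intro h0
      apply hx
      intro i
      have h1 := h0 i
      have h2 := hzx i
      simp only [Pi.zero_apply, sub_zero, Pi.smul_apply, smul_eq_mul] at *
      have h3 : (p : ℤ) ∣ c * x i := by
        have := dvd_sub h1 h2
        simpa using this
      exact (hpz.dvd_or_dvd h3).resolve_left hc
    obtain ⟨z', c', hz', hc', hzx', hn'⟩ := ex hp hp7 hz0
    rw [hn']
    congr 1
    refine uniq hp hz' hz (a := 1) (b := c') ?_ hc' ?_
    · intro h
      exact hpz.not_unit (isUnit_of_dvd_one h)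
    · simpa using hzx'
  · intro y d hd hy
    have hy0 : ¬ Cg p y 0 := by
      intro h0
      apply hx
      intro i
      have h1 := h0 i
      have h2 := hy i
      simp only [Pi.zero_apply, sub_zero, Pi.smul_apply, smul_eq_mul] at *
      have h3 : (p : ℤ) ∣ d * x i := by
        have := dvd_sub h1 h2
        simpa using this
      exact (hpz.dvd_or_dvd h3).resolve_left hd
    obtain ⟨z', c', hz', hc', hzx', hn'⟩ := ex hp hp7 hy0
    rw [hn', hn]
    congr 1
    refine uniq hp hz' hz (a := c) (b := c' * d) hc ?_ ?_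
    · intro h
      rcases hpz.dvd_or_dvd h with h | h
      · exact hc' h
      · exact hd h
    · intro i
      have h1 := hzx' i
      have h2 := hy i
      have h3 := hzx i
      simp only [Pi.smul_apply, smul_eq_mul] at *
      have e : c * z' i - c' * d * z i = c * (z' i - c' * y i) + c * c' * (y i - d * x i) -
          c' * d * (z i - c * x i) := by ring
      rw [e]
      exact dvd_sub (dvd_add (Dvd.dvd.mul_left h1 _) (Dvd.dvd.mul_left h2 _))
        (Dvd.dvd.mul_left h3 _)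

end Pool.Agent.Refl.H15N
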