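import Pool.Agent.Helper15_Refl.VscC

/-!
# VSC: one step of the walk
-/

namespace Pool.Agent.Refl.H15V

open Matrix Pool.Agent.Refl

theorem npos_iff (A : K.I10) (u v : K.I4) :
    K.npos A u v = true ↔ bz (matI A) (vI u) (vI v) ≤ 0 := by
  have h : K.npos A u v = K.notb (K.posI (K.dotI u (K.mulI A v))) := rfl
  rw [h, H93.notb_iff, H93.dotI_mulI, ← not_lt, ← H93.posI_iff, Bool.not_eq_true]

theorem exists_I4 (v : Z4) : ∃ x : K.I4, vI x = v :=
  ⟨⟨v 0, v 1, v 2, v 3⟩, by ext i; fin_cases i <;> rfl⟩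

theorem det_neg {G : M4} (h : Lat G) : G.det < 0 := by
  obtain ⟨P, hP, hPG⟩ := h.sig
  have h1 := congrArg Matrix.det hPG
  rw [Matrix.det_mul, Matrix.det_mul, Matrix.det_transpose, Matrix.det_diagonal] at h1
  have h2 : (G.map (Int.cast : ℤ → ℝ)).det = (G.det : ℝ) :=
    ((Int.castRingHom ℝ).map_det G).symm
  rw [h2] at h1
  simp [Fin.prod_univ_four] at h1
  have h3 : (G.det : ℝ) < 0 := by
    by_contra hcon
    push Not at hcon
    nlinarith [mul_nonneg (sq_nonneg P.det) hcon]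
  exact_mod_cast h3

/-- `mulI`-free form of the reconstruction -/
theorem vec_rec {A : K.I10} {a b c x : K.I4} {E : K.Ed} {k X Y Z m : ℕ} (hE : EdS A a b c E)
    (hV : E.V = K.negI (K.crs (K.mulI A a) (K.mulI A b) (K.mulI A c)))
    (hR : RtS A a b c x k X Y Z m) :
    (E.De : ℤ) • vI x = (m : ℤ) • vI E.V -
      ((E.A11 * X + E.A12 * Y + E.A13 * Z : ℤ) • vI a +
      (E.A12 * X + E.A22 * Y + E.A23 * Z : ℤ) • vI b +
      (E.A13 * X + E.A23 * Y + E.A33 * Z : ℤ) • vI c) := by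
  have h1 := rx hE hV hR
  have h2 := ry hE hV hR
  have h3 := rz hE hV hR
  have h4 := rw_ hE hV hR
  rw [hE.ea, hE.eb, hE.ec] at h1 h2 h3 h4
  push_cast at h1 h2 h3 h4
  ext i
  fin_cases i
  · exact h1
  · exact h2
  · exact h3
  · exact h4

theorem fc_iff {α : Type} (n : ℕ) (f : ℕ → α) : K.fc n f = f n := H93.fc_eq n f

/-- the tie is impossible -/
theorem no_tie {A : K.I10} {n : ℕ} {f : Fin n → Z4} {O : R4} (hL : Lat (matI A))
    (hC : Cham (matI A) n f O) {i j l : Fin n} {a b c r x : K.I4} {E : K.Ed}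
    (hE : EdS A a b c E)
    (hV : E.V = K.negI (K.crs (K.mulI A a) (K.mulI A b) (K.mulI A c)))
    (hv' : IsV (matI A) f i j l) (hia : f i = vI a) (hjb : f j = vI b) (hlx : f l = vI x)
    (hr : IsRoot (matI A) (vI r)) {K1 X1 Y1 Z1 m1 k' X Y Z m : ℕ}
    (hR1 : RtS A a b c r K1 X1 Y1 Z1 m1) (hR : RtS A a b c x k' X Y Z m) (hm1 : 0 < m1)
    (hm : 0 < m) (ho1 : 0 < g3 (matI A) (vI a) (vI b) (vI r) (vI r))
    (hc1 : 0 < (E.A33 : ℤ) * Z1 + (E.A13 * X1 + E.A23 * Y1))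
    (ho : 0 < g3 (matI A) (vI a) (vI b) (vI x) (vI x))
    (tie : ((E.A33 : ℤ) * Z + (E.A13 * X + E.A23 * Y)) ^ 2 *
      g3 (matI A) (vI a) (vI b) (vI r) (vI r) =
      ((E.A33 : ℤ) * Z1 + (E.A13 * X1 + E.A23 * Y1)) ^ 2 *
      g3 (matI A) (vI a) (vI b) (vI x) (vI x)) :
    (m : ℤ) * (E.Kb * X1 + E.p * Y1) ≤ m1 * (E.Kb * X + E.p * Y) ∧
    (m : ℤ) * (E.Ka * Y1 + E.p * X1) ≤ m1 * (E.Ka * Y + E.p * X) := by
  have q1 := rel3 hE hV hR1
  have q := rel3 hE hV hR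
  set C1 : ℤ := (E.A33 : ℤ) * Z1 + (E.A13 * X1 + E.A23 * Y1) with hC1
  set C : ℤ := (E.A33 : ℤ) * Z + (E.A13 * X + E.A23 * Y) with hCd
  set o1 : ℤ := g3 (matI A) (vI a) (vI b) (vI r) (vI r)
  set o : ℤ := g3 (matI A) (vI a) (vI b) (vI x) (vI x)
  have hm1' : (0 : ℤ) < m1 := by exact_mod_cast hm1
  have hm' : (0 : ℤ) < m := by exact_mod_cast hm
  have hA33 : (0 : ℤ) < E.A33 := by exact_mod_cast hE.A33p
  have hdA : (0 : ℤ) < E.dA := by exact_mod_cast hE.dAp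
  have hDe : (0 : ℤ) < E.De := by exact_mod_cast hE.Dep
  have hC0 : 0 ≤ C := by positivity
  -- `m² o1 = m1² o`
  have t1 : (m : ℤ) ^ 2 * o1 = (m1 : ℤ) ^ 2 * o := by
    have h1 : ((E.A33 : ℤ) * E.dA) * ((m : ℤ) ^ 2 * o1) =
        ((E.A33 : ℤ) * E.dA) * ((m1 : ℤ) ^ 2 * o) := by
      linear_combination tie - o1 * q + o * q1
    exact mul_left_cancel₀ (mul_pos hA33 hdA).ne' h1
  have t2 : (C * m1) ^ 2 = (C1 * m) ^ 2 := by
    have h1 : o1 * (C * m1) ^ 2 = o1 * (C1 * m) ^ 2 := by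
      linear_combination (m1 : ℤ) ^ 2 * tie - C1 ^ 2 * t1
    exact mul_left_cancel₀ ho1.ne' h1
  have t3 : C * m1 = C1 * m := by
    have h1 : 0 ≤ C * m1 := by positivity
    have h2 : 0 ≤ C1 * m := by positivity
    exact (pow_left_inj₀ h1 h2 two_ne_zero).1 t2
  -- the combination
  have v1 := vec_rec hE hV hR1
  have v := vec_rec hE hV hR
  have hcomb : ((m : ℤ) * E.De) • vI r =
      ((m1 : ℤ) * (E.A11 * X + E.A12 * Y + E.A13 * Z) -
        m * (E.A11 * X1 + E.A12 * Y1 + E.A13 * Z1)) • f i +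
      ((m1 : ℤ) * (E.A12 * X + E.A22 * Y + E.A23 * Z) -
        m * (E.A12 * X1 + E.A22 * Y1 + E.A23 * Z1)) • f j +
      ((m1 : ℤ) * E.De) • f l := by
    rw [hia, hjb, hlx, mul_smul, v1, mul_smul (m1 : ℤ), v]
    ext s
    simp only [Pi.smul_apply, Pi.add_apply, Pi.sub_apply, smul_eq_mul]
    linear_combination (vI c s) * t3
  have hmix := H92.mix' (matI A) n f O hL hC i j l hv' (vI r) hr _ _ _ _
    (mul_pos hm' hDe) hcomb
  have hg : 0 < (m1 : ℤ) * E.De := mul_pos hm1' hDe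
  obtain ⟨hα, hβ, -⟩ : 0 ≤ ((m1 : ℤ) * (E.A11 * X + E.A12 * Y + E.A13 * Z) -
        m * (E.A11 * X1 + E.A12 * Y1 + E.A13 * Z1)) ∧
      0 ≤ ((m1 : ℤ) * (E.A12 * X + E.A22 * Y + E.A23 * Z) -
        m * (E.A12 * X1 + E.A22 * Y1 + E.A23 * Z1)) ∧ 0 ≤ (m1 : ℤ) * E.De := by
    rcases hmix with h | h
    · exact h
    · exact absurd h.2.2 (not_le.2 hg)
  -- products with `a`, `b`
  have e11 : (E.De : ℤ) = g3 (matI A) (vI a) (vI b) (vI c) (vI c) := hE.De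
  rw [g3_eq] at e11
  have i1 : (E.A33 : ℤ) * (E.A11 * X + E.A12 * Y + E.A13 * Z) = E.De * (E.Kb * X + E.p * Y) +
      E.A13 * C := by
    rw [e11, hCd, hE.A33, hE.A11, hE.A12, hE.A13, hE.A23, hE.Kb, hE.p]; ring
  have i2 : (E.A33 : ℤ) * (E.A12 * X + E.A22 * Y + E.A23 * Z) = E.De * (E.Ka * Y + E.p * X) +
      E.A23 * C := by
    rw [e11, hCd, hE.A33, hE.A22, hE.A12, hE.A13, hE.A23, hE.Ka, hE.p]; ring
  have i3 : (E.A33 : ℤ) * (E.A11 * X1 + E.A12 * Y1 + E.A13 * Z1) =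
      E.De * (E.Kb * X1 + E.p * Y1) + E.A13 * C1 := by
    rw [e11, hC1, hE.A33, hE.A11, hE.A12, hE.A13, hE.A23, hE.Kb, hE.p]; ring
  have i4 : (E.A33 : ℤ) * (E.A12 * X1 + E.A22 * Y1 + E.A23 * Z1) =
      E.De * (E.Ka * Y1 + E.p * X1) + E.A23 * C1 := by
    rw [e11, hC1, hE.A33, hE.A22, hE.A12, hE.A13, hE.A23, hE.Ka, hE.p]; ring
  constructor
  · have h1 : (E.De : ℤ) * (m1 * (E.Kb * X + E.p * Y) - m * (E.Kb * X1 + E.p * Y1)) =
        E.A33 * ((m1 : ℤ) * (E.A11 * X + E.A12 * Y + E.A13 * Z) -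
        m * (E.A11 * X1 + E.A12 * Y1 + E.A13 * Z1)) := by
      linear_combination (-(m1 : ℤ)) * i1 + (m : ℤ) * i3 - (E.A13 : ℤ) * t3
    have h2 : 0 ≤ (E.De : ℤ) * (m1 * (E.Kb * X + E.p * Y) - m * (E.Kb * X1 + E.p * Y1)) := by
      rw [h1]; exact mul_nonneg hA33.le hα
    have h3 := nonneg_of_mul_nonneg_right h2 hDe
    linarith
  · have h1 : (E.De : ℤ) * (m1 * (E.Ka * Y + E.p * X) - m * (E.Ka * Y1 + E.p * X1)) =
        E.A33 * ((m1 : ℤ) * (E.A12 * X + E.A22 * Y + E.A23 * Z) -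
        m * (E.A12 * X1 + E.A22 * Y1 + E.A23 * Z1)) := by
      linear_combination (-(m1 : ℤ)) * i2 + (m : ℤ) * i4 - (E.A23 : ℤ) * t3
    have h2 : 0 ≤ (E.De : ℤ) * (m1 * (E.Ka * Y + E.p * X) - m * (E.Ka * Y1 + E.p * X1)) := by
      rw [h1]; exact mul_nonneg hA33.le hβ
    have h3 := nonneg_of_mul_nonneg_right h2 hDe
    linarith

theorem rtS (A : K.I10) (a b c x : K.I4) (hk : 0 ≤ bz (matI A) (vI x) (vI x))
    (ha : bz (matI A) (vI a) (vI x) ≤ 0) (hb : bz (matI A) (vI b) (vI x) ≤ 0)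
    (hc : bz (matI A) (vI c) (vI x) ≤ 0) (hm : 0 ≤ d4 (vI a) (vI b) (vI c) (vI x)) :
    RtS A a b c x (K.dotI x (K.mulI A x)).natAbs (K.dotI a (K.mulI A x)).natAbs
      (K.dotI b (K.mulI A x)).natAbs (K.dotI c (K.mulI A x)).natAbs (K.det4 a b c x).natAbs := by
  refine ⟨?_, ?_, ?_, ?_, ?_⟩
  · rw [H93.dotI_mulI]; exact natAbs_pos_cast hk
  · rw [H93.dotI_mulI]; exact natAbs_neg_cast ha
  · rw [H93.dotI_mulI]; exact natAbs_neg_cast hb
  · rw [H93.dotI_mulI]; exact natAbs_neg_cast hc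
  · rw [H93.det4_vI]; exact natAbs_pos_cast hm

theorem d4_swap (a b r c : Z4) : d4 b a r c = d4 a b c r := by
  unfold d4
  simp [Matrix.det_succ_row_zero, Fin.sum_univ_succ, Fin.succAbove]
  ring

theorem dvd_nat {k X : ℕ} {K' X' : ℤ} (h1 : (k : ℤ) = K') (h2 : (X : ℤ) = -X') (h : K' ∣ 2 * X') :
    k ∣ 2 * X := by
  have h3 : (k : ℤ) ∣ ((2 * X : ℕ) : ℤ) := by
    push_cast
    rw [h1, h2, mul_neg]
    exact h.neg_right
  exact_mod_cast h3

/-- VSC -/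
theorem vsc : VscStmt := by
  intro A ml n f O a b c r hL hn hC hok hvs
  obtain ⟨i, j, k, hia, hjb, hkc, hv, hpos⟩ := hok
  have hvs' : K.ands (K.ands (K.isR A r) (K.npos A a r)) (K.ands (K.ands (K.npos A b r)
      (K.npos A c r)) (K.ands (K.posI (K.det4 a b c r))
      (K.nabb (K.dotI r (K.mulI A r)) fun K1 => K.nabb (K.dotI a (K.mulI A r)) fun X1 =>
        K.nabb (K.dotI b (K.mulI A r)) fun Y1 => K.nabb (K.dotI c (K.mulI A r)) fun Z1 =>
        K.nabb (K.det4 a b c r) fun m1 =>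
          K.mkEd A a b c K.negI fun E => K.vsE E r ml K1 X1 Y1 Z1 m1))) = true := hvs
  simp only [K.nabb, fc_iff, H93.ands_iff, npos_iff, H93.isR_iff, H93.posI_iff, H93.det4_vI] at hvs'
  obtain ⟨⟨hr, har⟩, ⟨hbr, hcr⟩, hdr, hmk⟩ := hvs'
  rw [← H93.det4_vI] at hmk
  rw [mkEd_eq] at hmk
  -- the vertex
  obtain ⟨g2ij, g2ik, g2jk, g3k'⟩ := H51.vertexPos (matI A) n f O hL hC i j k hv
  have hdet := det_neg hL
  have ra := hC.root i
  have rb := hC.root j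
  have rc := hC.root k
  have oab := hC.obt i j hv.1
  have oac := hC.obt i k hv.2.2.1
  have obc := hC.obt j k hv.2.1
  rw [hia, hjb] at g2ij oab
  rw [hia, hkc] at g2ik oac
  rw [hjb, hkc] at g2jk obc
  rw [hia, hjb, hkc] at g3k'
  rw [hia] at ra
  rw [hjb] at rb
  rw [hkc] at rc
  have hE := edS A a b c (K.negI (K.crs (K.mulI A a) (K.mulI A b) (K.mulI A c))) hdet ra rb rc
    oab oac obc g2ij g2ik g2jk g3k'
  have hV : (ed A a b c (K.negI (K.crs (K.mulI A a) (K.mulI A b) (K.mulI A c)))).V =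
    K.negI (K.crs (K.mulI A a) (K.mulI A b) (K.mulI A c)) := rfl
  set E := ed A a b c (K.negI (K.crs (K.mulI A a) (K.mulI A b) (K.mulI A c))) with hEd
  have hR1 := rtS A a b c r hr.pos.le har hbr hcr hdr.le
  set K1 := (K.dotI r (K.mulI A r)).natAbs
  set X1 := (K.dotI a (K.mulI A r)).natAbs
  set Y1 := (K.dotI b (K.mulI A r)).natAbs
  set Z1 := (K.dotI c (K.mulI A r)).natAbs
  set m1 := (K.det4 a b c r).natAbs
  have hm1 : 0 < m1 := by
    have : (0 : ℤ) < m1 := by rw [hR1.m]; exact hdr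
    exact_mod_cast this
  -- the check
  have hmk' : K.ands (K.ands (Nat.ble 1 (E.A33 * Z1 + (E.A13 * X1 + E.A23 * Y1)))
      (Nat.ble 1 (K.omg E K1 X1 Y1)))
    (K.dvl (fun k => K.opt k E.Ka fun X _ => K.opt k E.Kb fun Y _ => K.fc (K.omg E k X Y) fun om =>
      Nat.rec true (fun _ _ => K.fc (E.A13 * X + E.A23 * Y) fun B0 =>
        K.fc (K.sqK (((E.A33 * Z1 + (E.A13 * X1 + E.A23 * Y1)) *
          (E.A33 * Z1 + (E.A13 * X1 + E.A23 * Y1))) * om / (K.omg E K1 X1 Y1))) fun cm =>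
        (Bool.rec true
          (K.fc (K.stp k E.Kc) fun st =>
            K.fam E k X Y st (Nat.succ ((cm - B0) / (E.A33 * st))) (fun Z m r' =>
              K.orb (K.eqI r' r) (K.fc (E.A33 * Z + B0) fun c =>
                K.ands (Nat.beq (c * c * (K.omg E K1 X1 Y1))
                  ((E.A33 * Z1 + (E.A13 * X1 + E.A23 * Y1)) *
                    (E.A33 * Z1 + (E.A13 * X1 + E.A23 * Y1)) * om))
                  (K.orb (Nat.blt (m1 * (E.Kb * X + E.p * Y)) (m * (E.Kb * X1 + E.p * Y1)))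
                    (Nat.blt (m1 * (E.Ka * Y + E.p * X)) (m * (E.Ka * Y1 + E.p * X1)))))))
          (Nat.ble B0 cm) : Bool)) om) ml 1) = true := by
    have h0 := hmk
    unfold K.vsE at h0
    simp only [fc_iff] at h0 ⊢
    exact h0
  rw [H93.ands_iff, H93.ands_iff] at hmk'
  obtain ⟨⟨hc1n, ho1n⟩, hdvl⟩ := hmk'
  have hc1n' := Nat.le_of_ble_eq_true hc1n
  have ho1n' := Nat.le_of_ble_eq_true ho1n
  set C1 : ℕ := E.A33 * Z1 + (E.A13 * X1 + E.A23 * Y1) with hC1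
  have hc1z : 0 < (E.A33 : ℤ) * Z1 + (E.A13 * X1 + E.A23 * Y1) := by
    have : (0 : ℤ) < (C1 : ℤ) := by exact_mod_cast hc1n'
    rw [hC1] at this
    push_cast at this
    exact this
  have ho1z : 0 < g3 (matI A) (vI a) (vI b) (vI r) (vI r) := by
    rw [g3r hE hR1]
    have e : K.omg E K1 X1 Y1 = K1 * E.A33 - (E.Kb * X1 * X1 + 2 * (E.p * X1 * Y1) +
      E.Ka * Y1 * Y1) := rfl
    rw [e] at ho1n'
    have h2 : E.Kb * X1 * X1 + 2 * (E.p * X1 * Y1) + E.Ka * Y1 * Y1 < K1 * E.A33 := by omega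
    have h3 : ((E.Kb * X1 * X1 + 2 * (E.p * X1 * Y1) + E.Ka * Y1 * Y1 : ℕ) : ℤ) <
      ((K1 * E.A33 : ℕ) : ℤ) := by exact_mod_cast h2
    push_cast at h3
    linarith
  have ho1c := omg_cast hE hR1 ho1z.le
  -- the far end
  obtain ⟨l, hlk, hv'⟩ := H51.farEnd (matI A) n f O hL hC i j k hv
  obtain ⟨x, hx⟩ := exists_I4 (f l)
  have rl := hC.root l
  have hli : l ≠ i := fun h => hv'.2.2.1 h.symm
  have hlj : l ≠ j := fun h => hv'.2.1 h.symm
  have oal := hC.obt i l hli.symm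
  have obl := hC.obt j l hlj.symm
  have ocl := hC.obt k l hlk.symm
  obtain ⟨-, g2il, g2jl, g3l⟩ := H51.vertexPos (matI A) n f O hL hC i j l hv'
  have hml := hpos l hli hlj hlk
  rw [← hx] at rl oal obl ocl g2il g2jl g3l hml
  rw [hia] at oal g2il g3l
  rw [hjb] at obl g2jl g3l
  rw [hkc] at ocl
  have hR := rtS A a b c x rl.pos.le oal obl ocl hml.le
  have hn' := hn (vI x) rl _ hdvl
  have ek : (bz (matI A) (vI x) (vI x)).natAbs = (K.dotI x (K.mulI A x)).natAbs := by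
    rw [H93.dotI_mulI]
  rw [ek] at hn'
  set k' := (K.dotI x (K.mulI A x)).natAbs
  set X := (K.dotI a (K.mulI A x)).natAbs
  set Y := (K.dotI b (K.mulI A x)).natAbs
  set Z := (K.dotI c (K.mulI A x)).natAbs
  set m := (K.det4 a b c x).natAbs
  have hm : 0 < m := by
    have : (0 : ℤ) < m := by rw [hR.m]; exact hml
    exact_mod_cast this
  have hk' : 0 < k' := by
    have : (0 : ℤ) < k' := by rw [hR.k]; exact rl.pos
    exact_mod_cast this
  have hoc := omg_cast hE hR g3l.le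
  -- divisibilities
  have symm := H93.bz_commA A
  have dka : k' ∣ 2 * X := dvd_nat hR.k hR.X (rl.dvd (vI a))
  have dkb : k' ∣ 2 * Y := dvd_nat hR.k hR.Y (rl.dvd (vI b))
  have dkc : k' ∣ 2 * Z := dvd_nat hR.k hR.Z (rl.dvd (vI c))
  have daa : E.Ka ∣ 2 * X := dvd_nat hE.Ka hR.X (by rw [symm (vI a) (vI x)]; exact ra.dvd (vI x))
  have dbb : E.Kb ∣ 2 * Y := dvd_nat hE.Kb hR.Y (by rw [symm (vI b) (vI x)]; exact rb.dvd (vI x))
  have dcc : E.Kc ∣ 2 * Z := dvd_nat hE.Kc hR.Z (by rw [symm (vI c) (vI x)]; exact rc.dvd (vI x))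
  have ltX : X * X < k' * E.Ka := by
    zify
    rw [hR.X, hR.k, hE.Ka]
    unfold g2 at g2il
    nlinarith
  have ltY : Y * Y < k' * E.Kb := by
    zify
    rw [hR.Y, hR.k, hE.Kb]
    unfold g2 at g2jl
    nlinarith
  obtain ⟨N1, hN1⟩ := opt_spec k' E.Ka X _ hn' hk' hE.Kap dka daa ltX
  obtain ⟨N2, hN2⟩ := opt_spec k' E.Kb Y _ hN1 hk' hE.Kbp dkb dbb ltY
  rw [fc_iff] at hN2
  have hom : 0 < K.omg E k' X Y := by
    have : (0 : ℤ) < (K.omg E k' X Y : ℤ) := by rw [hoc]; exact g3l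
    exact_mod_cast this
  set om := K.omg E k' X Y with hom_def
  obtain ⟨om', hom'⟩ : ∃ om', om = om' + 1 := ⟨om - 1, by omega⟩
  have hrec : ∀ (o : ℕ) (g : Bool), o = om' + 1 → (Nat.rec true (fun _ _ => g) o : Bool) = true →
      g = true := by
    intro o g ho h
    subst ho
    exact h
  have h6 := hrec om _ hom' hN2
  rw [fc_iff, fc_iff] at h6
  set cm := K.sqK (C1 * C1 * om / (K.omg E K1 X1 Y1)) with hcm
  set B0 := E.A13 * X + E.A23 * Y with hB0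
  set C : ℕ := E.A33 * Z + B0 with hCdef
  -- StepStmt
  have hstep := H92.step' (matI A) n f O hL hC i j k l hlk.symm hv hv' (vI r) hr
    (by rw [hia, hjb, hkc, ← hx]; exact mul_pos hdr hml)
    (by rw [hia, hjb]; exact ho1z)
    (by rw [hia, hjb, hkc, g3k hE hR1]; linarith)
  rw [hia, hjb, hkc, ← hx, g3k hE hR1, g3k hE hR] at hstep
  have hC_cast : ((E.A33 : ℤ) * Z + (E.A13 * X + E.A23 * Y)) = (C : ℤ) := by
    rw [hCdef, hB0]; push_cast; ring
  have hC1_cast : ((E.A33 : ℤ) * Z1 + (E.A13 * X1 + E.A23 * Y1)) = (C1 : ℤ) := by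
    rw [hC1]; push_cast; ring
  rw [hC_cast, hC1_cast, neg_sq, neg_sq, ← ho1c, ← hoc] at hstep
  have hstepN : C * C * K.omg E K1 X1 Y1 ≤ C1 * C1 * om := by
    have : ((C * C * K.omg E K1 X1 Y1 : ℕ) : ℤ) ≤ ((C1 * C1 * om : ℕ) : ℤ) := by
      push_cast
      rw [← pow_two, ← pow_two]
      exact hstep
    exact_mod_cast this
  have hCcm : C ≤ cm := by
    rw [hcm, H92.sqK]
    exact Nat.le_sqrt.2 ((Nat.le_div_iff_mul_le ho1n').2 hstepN)
  rw [H92.ble_rec, if_pos (by omega : B0 ≤ cm), fc_iff] at h6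
  obtain ⟨hst0, t, ht⟩ := stp_spec k' E.Kc Z hk' hE.Kcp dkc dcc
  set st := K.stp k' E.Kc
  have hZt : Z = t * st := by rw [ht]; ring
  have htlt : t < Nat.succ ((cm - B0) / (E.A33 * st)) := by
    refine Nat.lt_succ_of_le ((Nat.le_div_iff_mul_le (Nat.mul_pos hE.A33p hst0)).2 ?_)
    have : t * (E.A33 * st) = E.A33 * Z := by rw [hZt]; ring
    omega
  have hq := quad hE hV hR
  rw [hZt] at hq
  have h7 := fam_spec E k' X Y st _ _ h6 hE.dAp t m htlt hm hq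
  have hroot : K.rootI E.A k' x = true := by
    rw [hE.eA, H93.rootI_iff]
    refine ⟨fun y => ?_, rl.prim⟩
    rw [hR.k, symm (vI x) y]
    exact rl.dvd y
  rw [← hZt] at h7
  have h8 := cand_spec E k' X Y Z m _ x h7 hE.Dep (rx hE hV hR) (ry hE hV hR) (rz hE hV hR)
    (rw_ hE hV hR) hroot
  rw [H93.orb_iff, fc_iff, H93.ands_iff, H93.orb_iff, H93.eqI_iff] at h8
  -- conclusion
  have hxr : vI x = vI r := by
    rcases h8 with h8 | ⟨h8, h9⟩
    · exact h8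
    · exfalso
      have tieN : C * C * K.omg E K1 X1 Y1 = C1 * C1 * om := Nat.eq_of_beq_eq_true h8
      have tieZ : ((C * C * K.omg E K1 X1 Y1 : ℕ) : ℤ) = ((C1 * C1 * om : ℕ) : ℤ) := by
        rw [tieN]
      push_cast at tieZ
      obtain ⟨u1, u2⟩ := no_tie hL hC hE hV hv' hia hjb hx.symm hr hR1 hR hm1 hm ho1z hc1z g3l
        (by
          rw [hC_cast, hC1_cast, ← ho1c, ← hoc, pow_two, pow_two]
          exact tieZ)
      rcases h9 with h9 | h9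
      · have h10 : m1 * (E.Kb * X + E.p * Y) < m * (E.Kb * X1 + E.p * Y1) :=
          Nat.le_of_ble_eq_true h9
        have h11 : ((m1 * (E.Kb * X + E.p * Y) : ℕ) : ℤ) < ((m * (E.Kb * X1 + E.p * Y1) : ℕ) : ℤ) := by
          exact_mod_cast h10
        push_cast at h11
        linarith
      · have h10 : m1 * (E.Ka * Y + E.p * X) < m * (E.Ka * Y1 + E.p * X1) :=
          Nat.le_of_ble_eq_true h9
        have h11 : ((m1 * (E.Ka * Y + E.p * X) : ℕ) : ℤ) < ((m * (E.Ka * Y1 + E.p * X1) : ℕ) : ℤ) := by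
          exact_mod_cast h10
        push_cast at h11
        linarith
  have hv'' : IsV (matI A) f j i l := by
    obtain ⟨h1, h2, h3, V, hV0, hV1, hV2, hV3, hV4⟩ := hv'
    exact ⟨h1.symm, h3, h2, V, hV0, hV1, hV3, hV2, hV4⟩
  refine ⟨j, i, l, hjb, hia, by rw [← hx, hxr], hv'', ?_⟩
  intro s hsj hsi hsl
  have hds := H92.detSign' (matI A) n f O hL hC j i l k s hv'' (fun h => hv.2.1 h.symm)
    (fun h => hv.2.2.1 h.symm) hlk.symm hsj hsi hsl
  rw [hjb, hia, ← hx, hxr, hkc, d4_swap] at hds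
  rw [← d4_swap] at hdr
  rw [← d4_swap (vI a) (vI b) (vI r) (vI c)] at hds
  exact (pos_iff_pos_of_mul_pos hds).1 hdr

end Pool.Agent.Refl.H15V
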