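import Pool.Agent.Helper23_Refl.StmtC4
import Pool.Agent.Helper93_Refl.Norm
import Pool.Agent.Helper92_Refl.Final
import Pool.Agent.Helper92_Refl.SqK

/-!
# VSC, part A: algebra of the candidates
-/

namespace Pool.Agent.Refl.H15V

open Matrix Pool.Agent.Refl

/-- the determinant identity behind the reconstruction of a vector from its products -/
theorem rec_x (u v w a b c x : K.I4) :
    (K.dotI u a * (K.dotI v b * K.dotI w c - K.dotI v c * K.dotI w b) -
      K.dotI u b * (K.dotI v a * K.dotI w c - K.dotI v c * K.dotI w a) +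
      K.dotI u c * (K.dotI v a * K.dotI w b - K.dotI v b * K.dotI w a)) * x.x =
    -(K.det4 a b c x * (K.crs u v w).x) +
      (K.dotI u x * (K.dotI v b * K.dotI w c - K.dotI v c * K.dotI w b) -
        K.dotI u b * (K.dotI v x * K.dotI w c - K.dotI v c * K.dotI w x) +
        K.dotI u c * (K.dotI v x * K.dotI w b - K.dotI v b * K.dotI w x)) * a.x +
      (K.dotI u a * (K.dotI v x * K.dotI w c - K.dotI v c * K.dotI w x) -
        K.dotI u x * (K.dotI v a * K.dotI w c - K.dotI v c * K.dotI w a) +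
        K.dotI u c * (K.dotI v a * K.dotI w x - K.dotI v x * K.dotI w a)) * b.x +
      (K.dotI u a * (K.dotI v b * K.dotI w x - K.dotI v x * K.dotI w b) -
        K.dotI u b * (K.dotI v a * K.dotI w x - K.dotI v x * K.dotI w a) +
        K.dotI u x * (K.dotI v a * K.dotI w b - K.dotI v b * K.dotI w a)) * c.x := by
  simp only [H93.dotI_eq, H93.det4_eq]
  have h : (K.crs u v w).x =
    u.y * (v.z * w.w - v.w * w.z) - u.z * (v.y * w.w - v.w * w.y) + u.w * (v.y * w.z - v.z * w.y) :=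
    rfl
  rw [h]
  ring

theorem rec_y (u v w a b c x : K.I4) :
    (K.dotI u a * (K.dotI v b * K.dotI w c - K.dotI v c * K.dotI w b) -
      K.dotI u b * (K.dotI v a * K.dotI w c - K.dotI v c * K.dotI w a) +
      K.dotI u c * (K.dotI v a * K.dotI w b - K.dotI v b * K.dotI w a)) * x.y =
    -(K.det4 a b c x * (K.crs u v w).y) +
      (K.dotI u x * (K.dotI v b * K.dotI w c - K.dotI v c * K.dotI w b) -
        K.dotI u b * (K.dotI v x * K.dotI w c - K.dotI v c * K.dotI w x) +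
        K.dotI u c * (K.dotI v x * K.dotI w b - K.dotI v b * K.dotI w x)) * a.y +
      (K.dotI u a * (K.dotI v x * K.dotI w c - K.dotI v c * K.dotI w x) -
        K.dotI u x * (K.dotI v a * K.dotI w c - K.dotI v c * K.dotI w a) +
        K.dotI u c * (K.dotI v a * K.dotI w x - K.dotI v x * K.dotI w a)) * b.y +
      (K.dotI u a * (K.dotI v b * K.dotI w x - K.dotI v x * K.dotI w b) -
        K.dotI u b * (K.dotI v a * K.dotI w x - K.dotI v x * K.dotI w a) +
        K.dotI u x * (K.dotI v a * K.dotI w b - K.dotI v b * K.dotI w a)) * c.y := by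
  simp only [H93.dotI_eq, H93.det4_eq]
  have h : (K.crs u v w).y =
    -(u.x * (v.z * w.w - v.w * w.z) - u.z * (v.x * w.w - v.w * w.x) +
      u.w * (v.x * w.z - v.z * w.x)) := rfl
  rw [h]
  ring

theorem rec_z (u v w a b c x : K.I4) :
    (K.dotI u a * (K.dotI v b * K.dotI w c - K.dotI v c * K.dotI w b) -
      K.dotI u b * (K.dotI v a * K.dotI w c - K.dotI v c * K.dotI w a) +
      K.dotI u c * (K.dotI v a * K.dotI w b - K.dotI v b * K.dotI w a)) * x.z =
    -(K.det4 a b c x * (K.crs u v w).z) +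
      (K.dotI u x * (K.dotI v b * K.dotI w c - K.dotI v c * K.dotI w b) -
        K.dotI u b * (K.dotI v x * K.dotI w c - K.dotI v c * K.dotI w x) +
        K.dotI u c * (K.dotI v x * K.dotI w b - K.dotI v b * K.dotI w x)) * a.z +
      (K.dotI u a * (K.dotI v x * K.dotI w c - K.dotI v c * K.dotI w x) -
        K.dotI u x * (K.dotI v a * K.dotI w c - K.dotI v c * K.dotI w a) +
        K.dotI u c * (K.dotI v a * K.dotI w x - K.dotI v x * K.dotI w a)) * b.z +
      (K.dotI u a * (K.dotI v b * K.dotI w x - K.dotI v x * K.dotI w b) -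
        K.dotI u b * (K.dotI v a * K.dotI w x - K.dotI v x * K.dotI w a) +
        K.dotI u x * (K.dotI v a * K.dotI w b - K.dotI v b * K.dotI w a)) * c.z := by
  simp only [H93.dotI_eq, H93.det4_eq]
  have h : (K.crs u v w).z = u.x * (v.y * w.w - v.w * w.y) - u.y * (v.x * w.w - v.w * w.x) +
      u.w * (v.x * w.y - v.y * w.x) := rfl
  rw [h]
  ring

theorem rec_w (u v w a b c x : K.I4) :
    (K.dotI u a * (K.dotI v b * K.dotI w c - K.dotI v c * K.dotI w b) -
      K.dotI u b * (K.dotI v a * K.dotI w c - K.dotI v c * K.dotI w a) +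
      K.dotI u c * (K.dotI v a * K.dotI w b - K.dotI v b * K.dotI w a)) * x.w =
    -(K.det4 a b c x * (K.crs u v w).w) +
      (K.dotI u x * (K.dotI v b * K.dotI w c - K.dotI v c * K.dotI w b) -
        K.dotI u b * (K.dotI v x * K.dotI w c - K.dotI v c * K.dotI w x) +
        K.dotI u c * (K.dotI v x * K.dotI w b - K.dotI v b * K.dotI w x)) * a.w +
      (K.dotI u a * (K.dotI v x * K.dotI w c - K.dotI v c * K.dotI w x) -
        K.dotI u x * (K.dotI v a * K.dotI w c - K.dotI v c * K.dotI w a) +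
        K.dotI u c * (K.dotI v a * K.dotI w x - K.dotI v x * K.dotI w a)) * b.w +
      (K.dotI u a * (K.dotI v b * K.dotI w x - K.dotI v x * K.dotI w b) -
        K.dotI u b * (K.dotI v a * K.dotI w x - K.dotI v x * K.dotI w a) +
        K.dotI u x * (K.dotI v a * K.dotI w b - K.dotI v b * K.dotI w a)) * c.w := by
  simp only [H93.dotI_eq, H93.det4_eq]
  have h : (K.crs u v w).w = -(u.x * (v.y * w.z - v.z * w.y) - u.y * (v.x * w.z - v.z * w.x) +
      u.z * (v.x * w.y - v.y * w.x)) := rfl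
  rw [h]
  ring

/-! ### the loops -/

theorem opt_spec (k ka x : ℕ) (f : ℕ → ℕ → Bool) (h : K.opt k ka f = true) (hk : 0 < k)
    (hka : 0 < ka) (h1 : k ∣ 2 * x) (h2 : ka ∣ 2 * x) (hx : x * x < k * ka) :
    ∃ N, f x N = true := by
  have h' : K.ands (f 0 0) (Bool.rec (Bool.rec (Bool.rec (Bool.rec (Bool.rec true
      (K.opt1 f k 3) (Nat.beq k (Nat.mul 3 ka)))
      (K.opt1 f k 2) (Nat.beq k (Nat.mul 2 ka)))
      (K.opt1 f ka 3) (Nat.beq ka (Nat.mul 3 k)))
      (K.opt1 f ka 2) (Nat.beq ka (Nat.mul 2 k)))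
      (K.opt1 f ka 1) (Nat.beq ka k)) = true := h
  rw [H93.ands_iff] at h'
  obtain ⟨h0, h3⟩ := h'
  rcases Nat.eq_zero_or_pos x with hx0 | hx0
  · exact ⟨0, by rw [hx0]; exact h0⟩
  have ho : ∀ (M N : ℕ), M = 2 * x → K.opt1 f M N = true → f x N = true := by
    intro M N hM ho
    have ho' : (Bool.rec true (f (M / 2) N) (Nat.beq (M % 2) 0) : Bool) = true := ho
    rw [H92.beq_rec, hM, Nat.mul_mod_right, if_pos rfl, Nat.mul_div_cancel_left _ two_pos] at ho'
    exact ho'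
  simp only [H92.beq_rec, show Nat.mul 3 ka = 3 * ka from rfl, show Nat.mul 2 ka = 2 * ka from rfl,
    show Nat.mul 3 k = 3 * k from rfl, show Nat.mul 2 k = 2 * k from rfl] at h3
  obtain ⟨u, hu⟩ := h1
  obtain ⟨v, hv⟩ := h2
  have huv : u * v < 4 := by
    by_contra hcon
    push Not at hcon
    have e1 : (2 * x) * (2 * x) = (k * ka) * (u * v) := by
      calc (2 * x) * (2 * x) = (k * u) * (ka * v) := by rw [← hu, ← hv]
        _ = _ := by ring
    have e2 : (k * ka) * 4 ≤ (k * ka) * (u * v) := Nat.mul_le_mul_left _ hcon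
    nlinarith
  have hu0 : 0 < u := by
    rcases Nat.eq_zero_or_pos u with h | h
    · rw [h] at hu; omega
    · exact h
  have hv0 : 0 < v := by
    rcases Nat.eq_zero_or_pos v with h | h
    · rw [h] at hv; omega
    · exact h
  have hu4 : u < 4 := lt_of_le_of_lt (Nat.le_mul_of_pos_right u hv0) huv
  have hv4 : v < 4 := lt_of_le_of_lt (Nat.le_mul_of_pos_left v hu0) huv
  interval_cases u <;> interval_cases v <;> simp at huv
  · -- u = 1, v = 1
    have e : ka = k := by omega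
    rw [if_pos e] at h3
    exact ⟨1, ho ka 1 (by omega) h3⟩
  · -- u = 1, v = 2 : k = 2 x = 2 ka
    rw [if_neg (by omega), if_neg (by omega), if_neg (by omega), if_pos (by omega)] at h3
    exact ⟨2, ho k 2 (by omega) h3⟩
  · rw [if_neg (by omega), if_neg (by omega), if_neg (by omega), if_neg (by omega),
      if_pos (by omega)] at h3
    exact ⟨3, ho k 3 (by omega) h3⟩
  · rw [if_neg (by omega), if_pos (by omega)] at h3
    exact ⟨2, ho ka 2 (by omega) h3⟩
  · rw [if_neg (by omega), if_neg (by omega), if_pos (by omega)] at h3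
    exact ⟨3, ho ka 3 (by omega) h3⟩

theorem stp_spec (k kc z : ℕ) (hk : 0 < k) (hkc : 0 < kc) (h1 : k ∣ 2 * z) (h2 : kc ∣ 2 * z) :
    0 < K.stp k kc ∧ K.stp k kc ∣ z := by
  have hs : K.stp k kc = if Nat.lcm k kc % 2 = 0 then Nat.lcm k kc / 2 else Nat.lcm k kc := by
    have e : Nat.mul (Nat.div k (Nat.gcd k kc)) kc = Nat.lcm k kc := by
      show k / Nat.gcd k kc * kc = _
      rw [Nat.lcm, Nat.div_mul_right_comm (Nat.gcd_dvd_left k kc)]
    unfold K.stp
    rw [H93.fc_eq, e, H92.beq_rec]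
    rfl
  have hl0 : 0 < Nat.lcm k kc := Nat.lcm_pos hk hkc
  have hl : Nat.lcm k kc ∣ 2 * z := Nat.lcm_dvd h1 h2
  rw [hs]
  split_ifs with h
  · obtain ⟨l, hl'⟩ := Nat.dvd_of_mod_eq_zero h
    rw [hl', Nat.mul_div_cancel_left _ two_pos]
    rw [hl'] at hl
    exact ⟨by omega, Nat.dvd_of_mul_dvd_mul_left two_pos hl⟩
  · refine ⟨hl0, ?_⟩
    have hc : Nat.Coprime (Nat.lcm k kc) 2 := by
      rw [Nat.coprime_two_right]
      exact Nat.odd_iff.2 (by omega)
    exact hc.dvd_of_dvd_mul_left hl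

/-- the mask contains the squares -/
theorem smask_spec (m : ℕ) : (K.smask >>> (m * m % 5040)) % 2 = 1 := by
  have h : ∀ i : Fin 71, ∀ j : Fin 71,
      (K.smask >>> ((71 * i.1 + j.1) * (71 * i.1 + j.1) % 5040)) % 2 = 1 := by decide +kernel
  have hlt : m % 5040 < 5040 := Nat.mod_lt _ (by norm_num)
  have h1 := h ⟨m % 5040 / 71, by omega⟩ ⟨m % 5040 % 71, Nat.mod_lt _ (by norm_num)⟩
  have e0 : 71 * (m % 5040 / 71) + m % 5040 % 71 = m % 5040 := Nat.div_add_mod _ _
  have e : (m % 5040) * (m % 5040) % 5040 = m * m % 5040 := (Nat.mul_mod m m 5040).symm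
  simp only [e0, e] at h1
  exact h1

theorem divI_spec (x y : ℤ) (d : ℕ) (hd : 0 < d) (h : (d : ℤ) * y = x) : K.divI x d = y := by
  subst h
  rcases lt_or_ge y 0 with hy | hy
  · obtain ⟨k, hk⟩ : ∃ k : ℕ, y = -((k + 1 : ℕ) : ℤ) := ⟨(-y).toNat - 1, by omega⟩
    obtain ⟨n, hn⟩ : ∃ n : ℕ, d * (k + 1) = n + 1 := ⟨d * (k + 1) - 1, by
      have : 0 < d * (k + 1) := Nat.mul_pos hd (Nat.succ_pos k)
      omega⟩
    have e : (d : ℤ) * y = Int.negSucc n := by
      rw [hk, Int.negSucc_eq]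
      have : ((d * (k + 1) : ℕ) : ℤ) = ((n + 1 : ℕ) : ℤ) := by rw [hn]
      push_cast at this ⊢
      linarith
    rw [e, hk]
    show Int.neg (Int.ofNat (Nat.div (Nat.succ n) d)) = _
    have e2 : Nat.div (Nat.succ n) d = k + 1 := by
      show (n + 1) / d = k + 1
      rw [← hn, Nat.mul_div_cancel_left _ hd]
    rw [e2]
    rfl
  · obtain ⟨k, rfl⟩ := Int.eq_ofNat_of_zero_le hy
    have e : (d : ℤ) * (k : ℤ) = Int.ofNat (d * k) := by simp
    rw [e]
    show Int.ofNat (Nat.div (d * k) d) = _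
    have e2 : Nat.div (d * k) d = k := Nat.mul_div_cancel_left _ hd
    rw [e2]
    rfl

theorem num1_eq (m e1 e2 e3 : ℕ) (a b c V : ℤ) :
    K.num1 m e1 e2 e3 a b c V = m * V - (e1 * a + e2 * b + e3 * c) := rfl

/-- the candidate is rebuilt -/
theorem cand_spec (E : K.Ed) (k X Y Z m : ℕ) (f : K.I4 → Bool) (r : K.I4)
    (h : K.cand E k X Y Z m f = true) (hDe : 0 < E.De)
    (hx : (E.De : ℤ) * r.x = m * E.V.x - (((E.A11 * X + E.A12 * Y + E.A13 * Z : ℕ) : ℤ) * E.a.x +
      ((E.A12 * X + E.A22 * Y + E.A23 * Z : ℕ) : ℤ) * E.b.x +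
      ((E.A13 * X + E.A23 * Y + E.A33 * Z : ℕ) : ℤ) * E.c.x))
    (hy : (E.De : ℤ) * r.y = m * E.V.y - (((E.A11 * X + E.A12 * Y + E.A13 * Z : ℕ) : ℤ) * E.a.y +
      ((E.A12 * X + E.A22 * Y + E.A23 * Z : ℕ) : ℤ) * E.b.y +
      ((E.A13 * X + E.A23 * Y + E.A33 * Z : ℕ) : ℤ) * E.c.y))
    (hz : (E.De : ℤ) * r.z = m * E.V.z - (((E.A11 * X + E.A12 * Y + E.A13 * Z : ℕ) : ℤ) * E.a.z +
      ((E.A12 * X + E.A22 * Y + E.A23 * Z : ℕ) : ℤ) * E.b.z +
      ((E.A13 * X + E.A23 * Y + E.A33 * Z : ℕ) : ℤ) * E.c.z))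
    (hw : (E.De : ℤ) * r.w = m * E.V.w - (((E.A11 * X + E.A12 * Y + E.A13 * Z : ℕ) : ℤ) * E.a.w +
      ((E.A12 * X + E.A22 * Y + E.A23 * Z : ℕ) : ℤ) * E.b.w +
      ((E.A13 * X + E.A23 * Y + E.A33 * Z : ℕ) : ℤ) * E.c.w))
    (hr : K.rootI E.A k r = true) : f r = true := by
  have h' : K.fc (E.A11 * X + E.A12 * Y + E.A13 * Z) (fun e1 =>
      K.fc (E.A12 * X + E.A22 * Y + E.A23 * Z) (fun e2 =>
      K.fc (E.A13 * X + E.A23 * Y + E.A33 * Z) (fun e3 =>
      (fun x y z w : ℤ =>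
        (Bool.rec true
          ((fun r : K.I4 => (Bool.rec true (f r) (K.rootI E.A k r) : Bool))
            (K.I4.mk (K.divI x E.De) (K.divI y E.De) (K.divI z E.De) (K.divI w E.De)))
          (K.ands (K.ands (K.dvdI E.De x) (K.dvdI E.De y))
            (K.ands (K.dvdI E.De z) (K.dvdI E.De w))) : Bool))
        (K.num1 m e1 e2 e3 E.a.x E.b.x E.c.x E.V.x) (K.num1 m e1 e2 e3 E.a.y E.b.y E.c.y E.V.y)
        (K.num1 m e1 e2 e3 E.a.z E.b.z E.c.z E.V.z)
        (K.num1 m e1 e2 e3 E.a.w E.b.w E.c.w E.V.w)))) = true := h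
  rw [H93.fc_eq, H93.fc_eq, H93.fc_eq] at h'
  simp only [num1_eq] at h'
  rw [← hx, ← hy, ← hz, ← hw] at h'
  have hd : ∀ y : ℤ, K.dvdI E.De ((E.De : ℤ) * y) = true := fun y =>
    (H93.dvdI_iff _ _).2 (dvd_mul_right _ _)
  simp only [hd] at h'
  rw [divI_spec _ _ _ hDe rfl, divI_spec _ _ _ hDe rfl, divI_spec _ _ _ hDe rfl,
    divI_spec _ _ _ hDe rfl] at h'
  have h2 : (Bool.rec true (f r) (K.rootI E.A k r) : Bool) = true := h'
  rw [hr] at h2
  exact h2

/-- the loop over the last product -/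
theorem lpZ_spec (F KD dA : ℕ) (f : ℕ → ℕ → Bool) (g : ℕ → ℕ) (hdA : 0 < dA)
    (hg : ∀ t, g (t + 2) + g t = 2 * g (t + 1) + F) (n : ℕ) :
    ∀ t N e : ℕ, N = g t → N + e = g (t + 1) → K.lpZ F KD dA f n t N e = true →
      ∀ s, t ≤ s → s < t + n → ∀ m, g s = m * m * dA + KD → f s (m * m) = true := by
  induction n with
  | zero => intro t N e _ _ _ s h1 h2; omega
  | succ n ih =>
    intro t N e hN he h s h1 h2 m hm
    have h' : (Bool.rec (K.fc (N + e) fun n' => K.fc (e + F) fun e' => K.lpZ F KD dA f n (t + 1) n' e')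
        (Bool.rec (K.fc (N + e) fun n' => K.fc (e + F) fun e' => K.lpZ F KD dA f n (t + 1) n' e')
          (K.ands (f t ((N - KD) / dA))
            (K.fc (N + e) fun n' => K.fc (e + F) fun e' => K.lpZ F KD dA f n (t + 1) n' e'))
          (Nat.beq ((K.smask >>> ((N - KD) / dA % 5040)) % 2) 1))
        (Nat.beq ((N - KD) % dA) 0) : Bool) = true := h
    rw [H93.fc_eq, H93.fc_eq, H92.beq_rec, H92.beq_rec] at h'
    have hnext : K.lpZ F KD dA f n (t + 1) (N + e) (e + F) = true := by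
      split_ifs at h' with h3 h4
      · rw [H93.ands_iff] at h'
        exact h'.2
      · exact h'
      · exact h'
    rcases eq_or_lt_of_le h1 with h3 | h3
    · subst h3
      have e1 : N - KD = m * m * dA := by rw [hN, hm]; omega
      rw [e1, Nat.mul_mod_left, if_pos rfl, Nat.mul_div_cancel _ hdA,
        if_pos (smask_spec m)] at h'
      rw [H93.ands_iff] at h'
      exact h'.1
    · refine ih (t + 1) (N + e) (e + F) he ?_ hnext s h3 (by omega) m hm
      have h5 := hg t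
      show N + e + (e + F) = g (t + 2)
      omega

/-- all candidates -/
theorem fam_spec (E : K.Ed) (k X Y st T : ℕ) (f : (Z m : ℕ) → K.I4 → Bool)
    (h : K.fam E k X Y st T f = true) (hdA : 0 < E.dA) (t m : ℕ) (ht : t < T) (hm : 0 < m)
    (he : E.A33 * (t * st) * (t * st) + 2 * (E.A13 * X + E.A23 * Y) * (t * st) + K.c00 E X Y =
      m * m * E.dA + k * E.De) :
    K.cand E k X Y (t * st) m (f (t * st) m) = true := by
  set g : ℕ → ℕ := fun t => E.A33 * (t * st) * (t * st) + 2 * (E.A13 * X + E.A23 * Y) * (t * st) +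
    K.c00 E X Y with hg
  set F : ℕ := 2 * (E.A33 * st * st) with hF
  have h' : K.fc (E.A13 * X + E.A23 * Y) (fun B0 =>
      K.fc (2 * (E.A33 * st * st)) fun F => K.fc (k * E.De) fun KD => K.fc (K.c00 E X Y) fun C0 =>
      K.fc (F / 2 + 2 * (B0 * st)) fun e =>
      K.lpZ F KD E.dA (fun t q => K.fc q fun q => Nat.rec true (fun _ _ => K.fc (K.sqK q) fun m =>
        (Bool.rec true (K.fc (t * st) fun Z => K.cand E k X Y Z m (f Z m)) (Nat.beq (m * m) q) : Bool))
          q) T 0 C0 e) = true := h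
  rw [H93.fc_eq, H93.fc_eq, H93.fc_eq, H93.fc_eq, H93.fc_eq] at h'
  have h2 := lpZ_spec F (k * E.De) E.dA _ g hdA (by intro t; simp only [hg, hF]; ring) T 0
    (K.c00 E X Y) _ (by simp [hg]) (by
      simp only [hg, hF]
      rw [Nat.mul_div_cancel_left _ two_pos]
      ring) h' t (Nat.zero_le _) (by omega) m he
  have h3 : K.fc (m * m) (fun q => Nat.rec true (fun _ _ => K.fc (K.sqK q) fun m =>
        (Bool.rec true (K.fc (t * st) fun Z => K.cand E k X Y Z m (f Z m)) (Nat.beq (m * m) q) : Bool))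
          q) = true := h2
  rw [H93.fc_eq] at h3
  obtain ⟨q, hq⟩ : ∃ q, m * m = q + 1 := ⟨m * m - 1, by have := Nat.mul_pos hm hm; omega⟩
  have h4 : ∀ q', q' = q + 1 → (Nat.rec true (fun _ _ => K.fc (K.sqK q') fun m =>
        (Bool.rec true (K.fc (t * st) fun Z => K.cand E k X Y Z m (f Z m)) (Nat.beq (m * m) q') : Bool))
          q' : Bool) = true → (K.fc (K.sqK q') fun m =>
        (Bool.rec true (K.fc (t * st) fun Z => K.cand E k X Y Z m (f Z m)) (Nat.beq (m * m) q') : Bool))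
          = true := by
    intro q' hq' h
    subst hq'
    exact h
  have h5 := h4 (m * m) hq h3
  rw [H93.fc_eq, H92.sqK, Nat.sqrt_eq, H92.beq_rec, if_pos rfl, H93.fc_eq] at h5
  exact h5

end Pool.Agent.Refl.H15V
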