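import Pool.Agent.Helper15_Refl.VscA

/-!
# VSC, part B: the numbers of an edge
-/

namespace Pool.Agent.Refl.H15V

open Matrix Pool.Agent.Refl

theorem dotI_comm (u v : K.I4) : K.dotI u v = K.dotI v u := by
  rw [H93.dotI_eq, H93.dotI_eq]; ring

theorem dotI_mulI_left (A : K.I10) (u v : K.I4) :
    K.dotI (K.mulI A u) v = bz (matI A) (vI u) (vI v) := by
  rw [dotI_comm, H93.dotI_mulI, H93.bz_commA]

/-- the numbers of an edge -/
noncomputable def ed (A : K.I10) (a b c V : K.I4) : K.Ed :=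
  let Ka := (K.dotI (K.mulI A a) a).natAbs
  let Kb := (K.dotI (K.mulI A b) b).natAbs
  let Kc := (K.dotI (K.mulI A c) c).natAbs
  let p := (K.dotI (K.mulI A a) b).natAbs
  let q := (K.dotI (K.mulI A a) c).natAbs
  let r := (K.dotI (K.mulI A b) c).natAbs
  let dA := (K.detA A).natAbs
  K.Ed.mk A a b c V Ka Kb Kc p (Kb * Kc - r * r) (Ka * Kc - q * q) (Ka * Kb - p * p)
    (p * Kc + q * r) (q * Kb + p * r) (r * Ka + p * q)
    (Ka * (Kb * Kc - r * r) - (p * (p * Kc + q * r) + q * (q * Kb + p * r))) dA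

theorem mkEd_eq (A : K.I10) (a b c : K.I4) (sgn : K.I4 → K.I4) (f : K.Ed → Bool) :
    K.mkEd A a b c sgn f =
      f (ed A a b c (sgn (K.crs (K.mulI A a) (K.mulI A b) (K.mulI A c)))) := by
  unfold K.mkEd K.nabb
  simp only [H93.fc_eq]
  rfl

/-- the meaning of the numbers -/
structure EdS (A : K.I10) (a b c : K.I4) (E : K.Ed) : Prop where
  eA : E.A = A
  ea : E.a = a
  eb : E.b = b
  ec : E.c = c
  Ka : (E.Ka : ℤ) = bz (matI A) (vI a) (vI a)
  Kb : (E.Kb : ℤ) = bz (matI A) (vI b) (vI b)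
  Kc : (E.Kc : ℤ) = bz (matI A) (vI c) (vI c)
  p : (E.p : ℤ) = -bz (matI A) (vI a) (vI b)
  A11 : (E.A11 : ℤ) = bz (matI A) (vI b) (vI b) * bz (matI A) (vI c) (vI c) -
    bz (matI A) (vI b) (vI c) ^ 2
  A22 : (E.A22 : ℤ) = bz (matI A) (vI a) (vI a) * bz (matI A) (vI c) (vI c) -
    bz (matI A) (vI a) (vI c) ^ 2
  A33 : (E.A33 : ℤ) = bz (matI A) (vI a) (vI a) * bz (matI A) (vI b) (vI b) -
    bz (matI A) (vI a) (vI b) ^ 2
  A12 : (E.A12 : ℤ) = -bz (matI A) (vI a) (vI b) * bz (matI A) (vI c) (vI c) +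
    bz (matI A) (vI a) (vI c) * bz (matI A) (vI b) (vI c)
  A13 : (E.A13 : ℤ) = -bz (matI A) (vI a) (vI c) * bz (matI A) (vI b) (vI b) +
    bz (matI A) (vI a) (vI b) * bz (matI A) (vI b) (vI c)
  A23 : (E.A23 : ℤ) = -bz (matI A) (vI b) (vI c) * bz (matI A) (vI a) (vI a) +
    bz (matI A) (vI a) (vI b) * bz (matI A) (vI a) (vI c)
  De : (E.De : ℤ) = g3 (matI A) (vI a) (vI b) (vI c) (vI c)
  dA : (E.dA : ℤ) = -(matI A).det
  A11p : 0 < E.A11
  A22p : 0 < E.A22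
  A33p : 0 < E.A33
  Dep : 0 < E.De
  dAp : 0 < E.dA
  Kap : 0 < E.Ka
  Kbp : 0 < E.Kb
  Kcp : 0 < E.Kc

theorem g3_eq (G : M4) (a b k x : Z4) : g3 G a b k x =
    bz G a a * bz G b b * bz G k x - bz G a a * bz G b x * bz G b k -
    bz G a b * bz G a b * bz G k x + bz G a b * bz G b x * bz G a k +
    bz G a x * bz G a b * bz G b k - bz G a x * bz G b b * bz G a k := by
  unfold g3
  rw [Matrix.det_fin_three]
  simp

theorem natAbs_pos_cast {x : ℤ} (h : 0 ≤ x) : (x.natAbs : ℤ) = x := Int.natAbs_of_nonneg h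

theorem natAbs_neg_cast {x : ℤ} (h : x ≤ 0) : (x.natAbs : ℤ) = -x := by
  rw [← Int.natAbs_neg]; exact Int.natAbs_of_nonneg (by omega)

theorem edS (A : K.I10) (a b c V : K.I4) (hdet : (matI A).det < 0)
    (ha : IsRoot (matI A) (vI a)) (hb : IsRoot (matI A) (vI b)) (hc : IsRoot (matI A) (vI c))
    (hab : bz (matI A) (vI a) (vI b) ≤ 0) (hac : bz (matI A) (vI a) (vI c) ≤ 0)
    (hbc : bz (matI A) (vI b) (vI c) ≤ 0) (h1 : 0 < g2 (matI A) (vI a) (vI b))
    (h2 : 0 < g2 (matI A) (vI a) (vI c)) (h3 : 0 < g2 (matI A) (vI b) (vI c))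
    (h4 : 0 < g3 (matI A) (vI a) (vI b) (vI c) (vI c)) : EdS A a b c (ed A a b c V) := by
  have eKa := natAbs_pos_cast ha.pos.le
  have eKb := natAbs_pos_cast hb.pos.le
  have eKc := natAbs_pos_cast hc.pos.le
  have ep := natAbs_neg_cast hab
  have eq := natAbs_neg_cast hac
  have er := natAbs_neg_cast hbc
  have pa := ha.pos
  have pb := hb.pos
  have pc := hc.pos
  have edA : ((K.detA A).natAbs : ℤ) = -(matI A).det := by
    rw [H93.detA_eq]; exact natAbs_neg_cast hdet.le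
  have e4 := g3_eq (matI A) (vI a) (vI b) (vI c) (vI c)
  unfold g2 at h1 h2 h3
  have hcc := H93.bz_commA A (vI c) (vI c)
  unfold ed
  simp only [dotI_mulI_left]
  set Ka : ℤ := bz (matI A) (vI a) (vI a)
  set Kb : ℤ := bz (matI A) (vI b) (vI b)
  set Kc : ℤ := bz (matI A) (vI c) (vI c)
  set p : ℤ := bz (matI A) (vI a) (vI b)
  set q : ℤ := bz (matI A) (vI a) (vI c)
  set r : ℤ := bz (matI A) (vI b) (vI c)
  have l33 : p.natAbs * p.natAbs ≤ Ka.natAbs * Kb.natAbs := by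
    zify; rw [← Int.natCast_natAbs, ← Int.natCast_natAbs, ← Int.natCast_natAbs, eKa, eKb, ep]
    nlinarith
  have l22 : q.natAbs * q.natAbs ≤ Ka.natAbs * Kc.natAbs := by
    zify; rw [← Int.natCast_natAbs, ← Int.natCast_natAbs, ← Int.natCast_natAbs, eKa, eKc, eq]
    nlinarith
  have l11 : r.natAbs * r.natAbs ≤ Kb.natAbs * Kc.natAbs := by
    zify; rw [← Int.natCast_natAbs, ← Int.natCast_natAbs, ← Int.natCast_natAbs, eKb, eKc, er]
    nlinarith
  have c33 : ((Ka.natAbs * Kb.natAbs - p.natAbs * p.natAbs : ℕ) : ℤ) = Ka * Kb - p ^ 2 := by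
    rw [Nat.cast_sub l33, Nat.cast_mul, Nat.cast_mul, eKa, eKb, ep]; ring
  have c22 : ((Ka.natAbs * Kc.natAbs - q.natAbs * q.natAbs : ℕ) : ℤ) = Ka * Kc - q ^ 2 := by
    rw [Nat.cast_sub l22, Nat.cast_mul, Nat.cast_mul, eKa, eKc, eq]; ring
  have c11 : ((Kb.natAbs * Kc.natAbs - r.natAbs * r.natAbs : ℕ) : ℤ) = Kb * Kc - r ^ 2 := by
    rw [Nat.cast_sub l11, Nat.cast_mul, Nat.cast_mul, eKb, eKc, er]; ring
  have cin : ((p.natAbs * (p.natAbs * Kc.natAbs + q.natAbs * r.natAbs) +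
      q.natAbs * (q.natAbs * Kb.natAbs + p.natAbs * r.natAbs) : ℕ) : ℤ) =
      -p * (-p * Kc + q * r) + -q * (-q * Kb + p * r) := by
    push_cast
    rw [← Int.natCast_natAbs, ← Int.natCast_natAbs, ← Int.natCast_natAbs, ← Int.natCast_natAbs,
      ← Int.natCast_natAbs, eKb, eKc, ep, eq, er]
    ring
  have lDe : p.natAbs * (p.natAbs * Kc.natAbs + q.natAbs * r.natAbs) +
      q.natAbs * (q.natAbs * Kb.natAbs + p.natAbs * r.natAbs) ≤
      Ka.natAbs * (Kb.natAbs * Kc.natAbs - r.natAbs * r.natAbs) := by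
    have : ((p.natAbs * (p.natAbs * Kc.natAbs + q.natAbs * r.natAbs) +
      q.natAbs * (q.natAbs * Kb.natAbs + p.natAbs * r.natAbs) : ℕ) : ℤ) ≤
      ((Ka.natAbs * (Kb.natAbs * Kc.natAbs - r.natAbs * r.natAbs) : ℕ) : ℤ) := by
      rw [cin, Nat.cast_mul, c11, eKa]
      rw [e4] at h4
      linarith
    exact_mod_cast this
  have cDe : ((Ka.natAbs * (Kb.natAbs * Kc.natAbs - r.natAbs * r.natAbs) -
      (p.natAbs * (p.natAbs * Kc.natAbs + q.natAbs * r.natAbs) +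
      q.natAbs * (q.natAbs * Kb.natAbs + p.natAbs * r.natAbs)) : ℕ) : ℤ) =
      g3 (matI A) (vI a) (vI b) (vI c) (vI c) := by
    rw [Nat.cast_sub lDe, cin, Nat.cast_mul, c11, eKa, e4]
    ring
  refine ⟨rfl, rfl, rfl, rfl, eKa, eKb, eKc, ep, c11, c22, c33, ?_, ?_, ?_, cDe, edA, ?_, ?_, ?_,
    ?_, ?_, ?_, ?_, ?_⟩
  · push_cast
    rw [← Int.natCast_natAbs, ← Int.natCast_natAbs, ← Int.natCast_natAbs, ← Int.natCast_natAbs,
      eKc, ep, eq, er]
    ring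
  · push_cast
    rw [← Int.natCast_natAbs, ← Int.natCast_natAbs, ← Int.natCast_natAbs, ← Int.natCast_natAbs,
      eKb, ep, eq, er]
    ring
  · push_cast
    rw [← Int.natCast_natAbs, ← Int.natCast_natAbs, ← Int.natCast_natAbs, ← Int.natCast_natAbs,
      eKa, ep, eq, er]
    ring
  · have : (0 : ℤ) < ((Kb.natAbs * Kc.natAbs - r.natAbs * r.natAbs : ℕ) : ℤ) := by
      rw [c11]; exact h3
    exact_mod_cast this
  · have : (0 : ℤ) < ((Ka.natAbs * Kc.natAbs - q.natAbs * q.natAbs : ℕ) : ℤ) := by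
      rw [c22]; exact h2
    exact_mod_cast this
  · have : (0 : ℤ) < ((Ka.natAbs * Kb.natAbs - p.natAbs * p.natAbs : ℕ) : ℤ) := by
      rw [c33]; exact h1
    exact_mod_cast this
  · have := h4
    rw [← cDe] at this
    exact_mod_cast this
  · have : (0 : ℤ) < ((K.detA A).natAbs : ℤ) := by rw [edA]; omega
    exact_mod_cast this
  · have : (0 : ℤ) < (Ka.natAbs : ℤ) := by rw [eKa]; exact pa
    exact_mod_cast this
  · have : (0 : ℤ) < (Kb.natAbs : ℤ) := by rw [eKb]; exact pb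
    exact_mod_cast this
  · have : (0 : ℤ) < (Kc.natAbs : ℤ) := by rw [eKc]; exact pc
    exact_mod_cast this

end Pool.Agent.Refl.H15V
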