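import Pool.Agent.Helper15_Refl.VscB

/-!
# VSC, part C: the numbers of a root
-/

namespace Pool.Agent.Refl.H15V

open Matrix Pool.Agent.Refl

theorem det4_mulI (A : K.I10) (a b c x : K.I4) :
    K.det4 (K.mulI A a) (K.mulI A b) (K.mulI A c) (K.mulI A x) =
      (matI A).det * K.det4 a b c x := by
  rw [H93.det4_vI, H93.det4_vI, H93.mulI_vI, H93.mulI_vI, H93.mulI_vI, H93.mulI_vI]
  unfold d4
  have h : Matrix.of ![(matI A).mulVec (vI a), (matI A).mulVec (vI b), (matI A).mulVec (vI c),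
      (matI A).mulVec (vI x)] = Matrix.of ![vI a, vI b, vI c, vI x] * (matI A).transpose := by
    ext i j
    rw [Matrix.mul_apply]
    fin_cases i <;> simp [Matrix.mulVec, dotProduct, mul_comm]
  rw [h, Matrix.det_mul, Matrix.det_transpose]
  ring

/-- the numbers of a vector `x` -/
structure RtS (A : K.I10) (a b c x : K.I4) (k X Y Z m : ℕ) : Prop where
  k : (k : ℤ) = bz (matI A) (vI x) (vI x)
  X : (X : ℤ) = -bz (matI A) (vI a) (vI x)
  Y : (Y : ℤ) = -bz (matI A) (vI b) (vI x)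
  Z : (Z : ℤ) = -bz (matI A) (vI c) (vI x)
  m : (m : ℤ) = d4 (vI a) (vI b) (vI c) (vI x)

section

variable {A : K.I10} {a b c x : K.I4} {E : K.Ed} {k X Y Z m : ℕ}

theorem negI_x (v : K.I4) : (K.negI v).x = -v.x := rfl
theorem negI_y (v : K.I4) : (K.negI v).y = -v.y := rfl
theorem negI_z (v : K.I4) : (K.negI v).z = -v.z := rfl
theorem negI_w (v : K.I4) : (K.negI v).w = -v.w := rfl

theorem rx (hE : EdS A a b c E) (hV : E.V = K.negI (K.crs (K.mulI A a) (K.mulI A b) (K.mulI A c)))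
    (hR : RtS A a b c x k X Y Z m) :
    (E.De : ℤ) * x.x = m * E.V.x - (((E.A11 * X + E.A12 * Y + E.A13 * Z : ℕ) : ℤ) * E.a.x +
      ((E.A12 * X + E.A22 * Y + E.A23 * Z : ℕ) : ℤ) * E.b.x +
      ((E.A13 * X + E.A23 * Y + E.A33 * Z : ℕ) : ℤ) * E.c.x) := by
  have h := rec_x (K.mulI A a) (K.mulI A b) (K.mulI A c) a b c x
  simp only [dotI_mulI_left, H93.det4_vI] at h
  rw [H93.bz_commA A (vI b) (vI a), H93.bz_commA A (vI c) (vI a), H93.bz_commA A (vI c) (vI b)] at h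
  rw [hV, negI_x, hE.ea, hE.eb, hE.ec, hE.De, g3_eq, hR.m]
  push_cast
  rw [hE.A11, hE.A12, hE.A13, hE.A22, hE.A23, hE.A33, hR.X, hR.Y, hR.Z]
  linear_combination h

theorem ry (hE : EdS A a b c E) (hV : E.V = K.negI (K.crs (K.mulI A a) (K.mulI A b) (K.mulI A c)))
    (hR : RtS A a b c x k X Y Z m) :
    (E.De : ℤ) * x.y = m * E.V.y - (((E.A11 * X + E.A12 * Y + E.A13 * Z : ℕ) : ℤ) * E.a.y +
      ((E.A12 * X + E.A22 * Y + E.A23 * Z : ℕ) : ℤ) * E.b.y +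
      ((E.A13 * X + E.A23 * Y + E.A33 * Z : ℕ) : ℤ) * E.c.y) := by
  have h := rec_y (K.mulI A a) (K.mulI A b) (K.mulI A c) a b c x
  simp only [dotI_mulI_left, H93.det4_vI] at h
  rw [H93.bz_commA A (vI b) (vI a), H93.bz_commA A (vI c) (vI a), H93.bz_commA A (vI c) (vI b)] at h
  rw [hV, negI_y, hE.ea, hE.eb, hE.ec, hE.De, g3_eq, hR.m]
  push_cast
  rw [hE.A11, hE.A12, hE.A13, hE.A22, hE.A23, hE.A33, hR.X, hR.Y, hR.Z]
  linear_combination h

theorem rz (hE : EdS A a b c E) (hV : E.V = K.negI (K.crs (K.mulI A a) (K.mulI A b) (K.mulI A c)))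
    (hR : RtS A a b c x k X Y Z m) :
    (E.De : ℤ) * x.z = m * E.V.z - (((E.A11 * X + E.A12 * Y + E.A13 * Z : ℕ) : ℤ) * E.a.z +
      ((E.A12 * X + E.A22 * Y + E.A23 * Z : ℕ) : ℤ) * E.b.z +
      ((E.A13 * X + E.A23 * Y + E.A33 * Z : ℕ) : ℤ) * E.c.z) := by
  have h := rec_z (K.mulI A a) (K.mulI A b) (K.mulI A c) a b c x
  simp only [dotI_mulI_left, H93.det4_vI] at h
  rw [H93.bz_commA A (vI b) (vI a), H93.bz_commA A (vI c) (vI a), H93.bz_commA A (vI c) (vI b)] at h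
  rw [hV, negI_z, hE.ea, hE.eb, hE.ec, hE.De, g3_eq, hR.m]
  push_cast
  rw [hE.A11, hE.A12, hE.A13, hE.A22, hE.A23, hE.A33, hR.X, hR.Y, hR.Z]
  linear_combination h

theorem rw_ (hE : EdS A a b c E) (hV : E.V = K.negI (K.crs (K.mulI A a) (K.mulI A b) (K.mulI A c)))
    (hR : RtS A a b c x k X Y Z m) :
    (E.De : ℤ) * x.w = m * E.V.w - (((E.A11 * X + E.A12 * Y + E.A13 * Z : ℕ) : ℤ) * E.a.w +
      ((E.A12 * X + E.A22 * Y + E.A23 * Z : ℕ) : ℤ) * E.b.w +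
      ((E.A13 * X + E.A23 * Y + E.A33 * Z : ℕ) : ℤ) * E.c.w) := by
  have h := rec_w (K.mulI A a) (K.mulI A b) (K.mulI A c) a b c x
  simp only [dotI_mulI_left, H93.det4_vI] at h
  rw [H93.bz_commA A (vI b) (vI a), H93.bz_commA A (vI c) (vI a), H93.bz_commA A (vI c) (vI b)] at h
  rw [hV, negI_w, hE.ea, hE.eb, hE.ec, hE.De, g3_eq, hR.m]
  push_cast
  rw [hE.A11, hE.A12, hE.A13, hE.A22, hE.A23, hE.A33, hR.X, hR.Y, hR.Z]
  linear_combination h

/-- product with a vector whose products are known -/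
theorem dotV (hV : E.V = K.negI (K.crs (K.mulI A a) (K.mulI A b) (K.mulI A c))) (y : K.I4) :
    K.dotI E.V (K.mulI A y) = (matI A).det * d4 (vI a) (vI b) (vI c) (vI y) := by
  have h1 : K.dotI E.V (K.mulI A y) = -K.dotI (K.crs (K.mulI A a) (K.mulI A b) (K.mulI A c))
      (K.mulI A y) := by
    rw [hV, H93.dotI_eq, H93.dotI_eq, negI_x, negI_y, negI_z, negI_w]
    ring
  rw [h1, H93.crs_dot, neg_neg, det4_mulI, H93.det4_vI]

/-- the determinant of the fourth vector -/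
theorem quad (hE : EdS A a b c E)
    (hV : E.V = K.negI (K.crs (K.mulI A a) (K.mulI A b) (K.mulI A c)))
    (hR : RtS A a b c x k X Y Z m) :
    E.A33 * Z * Z + 2 * (E.A13 * X + E.A23 * Y) * Z + K.c00 E X Y = m * m * E.dA + k * E.De := by
  have h1 := rx hE hV hR
  have h2 := ry hE hV hR
  have h3 := rz hE hV hR
  have h4 := rw_ hE hV hR
  have h5 := dotV hV x
  rw [← hR.m] at h5
  have hk : (k : ℤ) = K.dotI x (K.mulI A x) := by rw [hR.k, H93.dotI_mulI]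
  have ha : -(X : ℤ) = K.dotI a (K.mulI A x) := by rw [H93.dotI_mulI, hR.X, neg_neg]
  have hb : -(Y : ℤ) = K.dotI b (K.mulI A x) := by rw [H93.dotI_mulI, hR.Y, neg_neg]
  have hc : -(Z : ℤ) = K.dotI c (K.mulI A x) := by rw [H93.dotI_mulI, hR.Z, neg_neg]
  rw [H93.dotI_eq] at h5 hk ha hb hc
  rw [hE.ea, hE.eb, hE.ec] at h1 h2 h3 h4
  have hc00 : K.c00 E X Y = E.A11 * X * X + (E.A22 * Y * Y + 2 * (E.A12 * X * Y)) := rfl
  have hdA := hE.dA
  zify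
  rw [hc00]
  push_cast at h1 h2 h3 h4 ⊢
  set g0 := (K.mulI A x).x
  set g1 := (K.mulI A x).y
  set g2 := (K.mulI A x).z
  set g3 := (K.mulI A x).w
  rw [hdA]
  linear_combination (-g0) * h1 - g1 * h2 - g2 * h3 - g3 * h4 - (m : ℤ) * h5 - (E.De : ℤ) * hk -
    ((E.A11 : ℤ) * X + E.A12 * Y + E.A13 * Z) * ha -
    ((E.A12 : ℤ) * X + E.A22 * Y + E.A23 * Z) * hb -
    ((E.A13 : ℤ) * X + E.A23 * Y + E.A33 * Z) * hc

theorem g3k (hE : EdS A a b c E) (hR : RtS A a b c x k X Y Z m) :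
    g3 (matI A) (vI a) (vI b) (vI c) (vI x) =
      -((E.A33 : ℤ) * Z + (E.A13 * X + E.A23 * Y)) := by
  have hcb := H93.bz_commA A (vI c) (vI b)
  rw [g3_eq, hE.A33, hE.A13, hE.A23, hR.X, hR.Y, hR.Z]
  ring

theorem g3r (hE : EdS A a b c E) (hR : RtS A a b c x k X Y Z m) :
    g3 (matI A) (vI a) (vI b) (vI x) (vI x) = (k : ℤ) * E.A33 -
      ((E.Kb : ℤ) * X * X + 2 * (E.p * X * Y) + E.Ka * Y * Y) := by
  rw [g3_eq, hE.A33, hE.Kb, hE.Ka, hE.p, hR.X, hR.Y, hR.k]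
  ring

theorem omg_cast (hE : EdS A a b c E) (hR : RtS A a b c x k X Y Z m)
    (h : 0 ≤ g3 (matI A) (vI a) (vI b) (vI x) (vI x)) :
    (K.omg E k X Y : ℤ) = g3 (matI A) (vI a) (vI b) (vI x) (vI x) := by
  have e : K.omg E k X Y = k * E.A33 - (E.Kb * X * X + 2 * (E.p * X * Y) + E.Ka * Y * Y) := rfl
  have h1 := g3r hE hR
  have hle : E.Kb * X * X + 2 * (E.p * X * Y) + E.Ka * Y * Y ≤ k * E.A33 := by
    zify
    linarith
  rw [e, Nat.cast_sub hle, h1]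
  push_cast
  ring

/-- relation between the three numbers of a vector -/
theorem rel3 (hE : EdS A a b c E)
    (hV : E.V = K.negI (K.crs (K.mulI A a) (K.mulI A b) (K.mulI A c)))
    (hR : RtS A a b c x k X Y Z m) :
    ((E.A33 : ℤ) * Z + (E.A13 * X + E.A23 * Y)) ^ 2 = (E.A33 : ℤ) * E.dA * m ^ 2 +
      E.De * g3 (matI A) (vI a) (vI b) (vI x) (vI x) := by
  have h1 := quad hE hV hR
  have h2 := g3r hE hR
  have h3 : (E.De : ℤ) = _ := hE.De
  rw [g3_eq] at h3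
  have hc00 : K.c00 E X Y = E.A11 * X * X + (E.A22 * Y * Y + 2 * (E.A12 * X * Y)) := rfl
  rw [hc00] at h1
  have h1' : ((E.A33 : ℤ) * Z * Z + 2 * (E.A13 * X + E.A23 * Y) * Z + (E.A11 * X * X +
      (E.A22 * Y * Y + 2 * (E.A12 * X * Y)))) = m * m * E.dA + k * E.De := by exact_mod_cast h1
  rw [h2]
  have e1 : (E.De : ℤ) * E.Kb = E.A11 * E.A33 - E.A13 ^ 2 := by
    rw [h3, hE.Kb, hE.A11, hE.A33, hE.A13]; ring
  have e2 : (E.De : ℤ) * E.Ka = E.A22 * E.A33 - E.A23 ^ 2 := by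
    rw [h3, hE.Ka, hE.A22, hE.A33, hE.A23]; ring
  have e3 : (E.De : ℤ) * E.p = E.A12 * E.A33 - E.A13 * E.A23 := by
    rw [h3, hE.p, hE.A12, hE.A33, hE.A23, hE.A13]; ring
  linear_combination (E.A33 : ℤ) * h1' + (X : ℤ) ^ 2 * e1 + (Y : ℤ) ^ 2 * e2 + 2 * (X : ℤ) * Y * e3

end

end Pool.Agent.Refl.H15V
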